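import Pool.Agent.V8H99.DI.Ring

/-! # The final statements, and the fiducial in dimension three -/

set_option autoImplicit false

namespace Pool.Agent.V8H99.DI

open Finset Complex
open scoped ComplexConjugate
open Pool.Agent.R503.SIC (e e_add e_zero conj_e sum_e Fid conj_mul_self' ov norm_e)

theorem Pr_self {d : ℕ} [NeZero d] (ψ : ZMod d → ℂ) (j : ZMod d) : Pr ψ j j = ((‖ψ j‖ ^ 2 : ℝ) : ℂ) := by
  unfold Pr
  rw [mul_comm, conj_mul_self']

theorem norm_chirp {d : ℕ} [NeZero d] (c : ZMod d) (ψ : ZMod d → ℂ) (j : ZMod d) :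
    ‖chirp c ψ j‖ = ‖ψ j‖ := by
  unfold chirp
  rw [norm_mul, norm_e, one_mul]

theorem no_prob_none {d : ℕ} [NeZero d] (hd : d.Prime) (hd5 : 5 ≤ d) {ψ : ZMod d → ℂ} (h : Fid ψ)
    (O : ValuationSubring ℂ) (hpO : (d : ℂ) ∈ O.nonunits) (c : ZMod d)
    (hpos : ∀ j, ((‖ψ j‖ ^ 2 : ℝ) : ℂ) ∈ O) (hmom : ∀ j, ((‖amp c ψ j‖ ^ 2 : ℝ) : ℂ) ∈ O) : False := by
  refine no_prob hd hd5 (fid_chirp c h) O hpO (fun j => ?_) (fun j => ?_)
  · rw [Pr_self, norm_chirp]
    exact hpos j
  · rw [Pr_self]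
    exact hmom j

theorem no_prob_some {d : ℕ} [NeZero d] (hd : d.Prime) (hd5 : 5 ≤ d) {ψ : ZMod d → ℂ} (h : Fid ψ)
    (O : ValuationSubring ℂ) (hpO : (d : ℂ) ∈ O.nonunits) {c c' : ZMod d} (hc : c ≠ c')
    (hpos : ∀ j, ((‖amp c ψ j‖ ^ 2 : ℝ) : ℂ) ∈ O)
    (hmom : ∀ j, ((‖amp c' ψ j‖ ^ 2 : ℝ) : ℂ) ∈ O) : False := by
  have : Fact d.Prime := ⟨hd⟩
  obtain ⟨c'', s, hs, hk⟩ := amp_pair hd (by omega) hc ψ
  refine no_prob_none hd hd5 (fid_Ft (fid_chirp c h)) O hpO c'' hpos fun j => ?_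
  have h1 := hk (s⁻¹ * j)
  rw [← mul_assoc, mul_inv_cancel₀ hs, one_mul] at h1
  change ((‖amp c'' (amp c ψ) j‖ ^ 2 : ℝ) : ℂ) ∈ O
  rw [← h1]
  exact hmom _

/-! ### dimension three -/

/-- the fiducial `(0, 1, -1) / √2` -/
noncomputable def hesse (j : ZMod 3) : ℂ :=
  if j = 1 then ((Real.sqrt (1 / 2) : ℝ) : ℂ) else if j = 2 then -((Real.sqrt (1 / 2) : ℝ) : ℂ) else 0

theorem ss : ((Real.sqrt (1 / 2) : ℝ) : ℂ) * ((Real.sqrt (1 / 2) : ℝ) : ℂ) = 1 / 2 := by
  rw [← Complex.ofReal_mul, Real.mul_self_sqrt (by norm_num)]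
  norm_num

theorem hesse0 : hesse 0 = 0 := by
  unfold hesse
  rw [if_neg (by decide), if_neg (by decide)]

theorem hesse1 : hesse 1 = ((Real.sqrt (1 / 2) : ℝ) : ℂ) := by
  unfold hesse
  rw [if_pos rfl]

theorem hesse2 : hesse 2 = -((Real.sqrt (1 / 2) : ℝ) : ℂ) := by
  unfold hesse
  rw [if_neg (by decide), if_pos rfl]

theorem sum3 {M : Type} [AddCommMonoid M] (F : ZMod 3 → M) : ∑ j, F j = F 0 + (F 1 + F 2) := by
  have h : (univ : Finset (ZMod 3)) = {0, 1, 2} := by decide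
  rw [h, sum_insert (by decide), sum_insert (by decide), sum_singleton]

theorem cases3 (a : ZMod 3) : a = 0 ∨ a = 1 ∨ a = 2 := by
  revert a
  decide

theorem e_sum3 {b : ZMod 3} (hb : b ≠ 0) : e b + e (2 * b) = -1 := by
  have h := sum_e b
  rw [if_neg hb, sum3, zero_mul, one_mul, e_zero] at h
  linear_combination h

theorem fid_hesse : Fid hesse := by
  have hs : Real.sqrt (1 / 2) ^ 2 = 1 / 2 := Real.sq_sqrt (by norm_num)
  constructor
  · rw [sum3, hesse0, hesse1, hesse2]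
    rw [norm_neg, Complex.norm_real, Real.norm_eq_abs, sq_abs, norm_zero, hs]
    norm_num
  · intro a b hab
    have h1 : ov hesse a b = conj (hesse (0 + a)) * (e (b * 0) * hesse 0)
        + (conj (hesse (1 + a)) * (e (b * 1) * hesse 1)
          + conj (hesse (2 + a)) * (e (b * 2) * hesse 2)) := by
      unfold ov
      rw [sum3]
    rw [hesse0, mul_zero, mul_zero, zero_add] at h1
    rcases cases3 a with rfl | rfl | rfl
    · have hb : b ≠ 0 := fun hb => hab (by rw [hb])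
      rw [add_zero, add_zero, hesse1, hesse2, map_neg, Complex.conj_ofReal] at h1
      have h2 : ov hesse 0 b = -(1 / 2) := by
        rw [h1, mul_one, mul_comm b 2]
        linear_combination (e b + e (2 * b)) * ss + (1 / 2) * e_sum3 hb
      rw [h2]
      norm_num
    · rw [show (1 : ZMod 3) + 1 = 2 by decide, show (2 : ZMod 3) + 1 = 0 by decide, hesse0, hesse1,
        hesse2, map_neg, Complex.conj_ofReal, map_zero, zero_mul, add_zero] at h1
      have h2 : ov hesse 1 b = -(1 / 2) * e (b * 1) := by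
        rw [h1]
        linear_combination -(e (b * 1)) * ss
      rw [h2, norm_mul, norm_e]
      norm_num
    · rw [show (1 : ZMod 3) + 2 = 0 by decide, show (2 : ZMod 3) + 2 = 1 by decide, hesse0, hesse1,
        hesse2, Complex.conj_ofReal, map_zero, zero_mul, zero_add] at h1
      have h2 : ov hesse 2 b = -(1 / 2) * e (b * 2) := by
        rw [h1]
        linear_combination -(e (b * 2)) * ss
      rw [h2, norm_mul, norm_e]
      norm_num

/-- the entries of the projector onto `hesse` in the two bases are `0`, `1 / 2` or `- 1 / 2` -/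
theorem entries_pos (j k : ZMod 3) : ∃ m : ℤ, Pr hesse j k * 2 = m := by
  have key : ∀ x y : ℂ, (x = 0 ∨ x = ((Real.sqrt (1 / 2) : ℝ) : ℂ) ∨ x = -((Real.sqrt (1 / 2) : ℝ) : ℂ)) →
      (y = 0 ∨ y = ((Real.sqrt (1 / 2) : ℝ) : ℂ) ∨ y = -((Real.sqrt (1 / 2) : ℝ) : ℂ)) →
      ∃ m : ℤ, x * conj y * 2 = m := by
    rintro x y (rfl | rfl | rfl) (rfl | rfl | rfl)
    · exact ⟨0, by simp⟩
    · exact ⟨0, by simp⟩
    · exact ⟨0, by simp⟩
    · exact ⟨0, by simp⟩
    · refine ⟨1, ?_⟩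
      rw [Complex.conj_ofReal]
      push_cast
      linear_combination 2 * ss
    · refine ⟨-1, ?_⟩
      rw [map_neg, Complex.conj_ofReal]
      push_cast
      linear_combination -2 * ss
    · exact ⟨0, by simp⟩
    · refine ⟨-1, ?_⟩
      rw [Complex.conj_ofReal]
      push_cast
      linear_combination -2 * ss
    · refine ⟨1, ?_⟩
      rw [map_neg, Complex.conj_ofReal]
      push_cast
      linear_combination 2 * ss
  have hv : ∀ j, (hesse j = 0 ∨ hesse j = ((Real.sqrt (1 / 2) : ℝ) : ℂ)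
      ∨ hesse j = -((Real.sqrt (1 / 2) : ℝ) : ℂ)) := by
    intro j
    rcases cases3 j with rfl | rfl | rfl
    · left; exact hesse0
    · right; left; exact hesse1
    · right; right; exact hesse2
  exact key _ _ (hv j) (hv k)

theorem entries_mom (j k : ZMod 3) : ∃ m : ℤ, Pr (amp 0 hesse) j k * 2 = m := by
  set t : ZMod 3 → ℂ := fun k => e k - e (2 * k) with ht
  have h3 : ((Real.sqrt (3 : ℕ) : ℝ) : ℂ) * ((Real.sqrt (3 : ℕ) : ℝ) : ℂ) = 3 := by
    rw [← Complex.ofReal_mul, Real.mul_self_sqrt (by norm_num)]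
    norm_num
  have h30 : ((Real.sqrt (3 : ℕ) : ℝ) : ℂ) ≠ 0 := fun h => by
    rw [h, mul_zero] at h3
    norm_num at h3
  have hamp : ∀ k, ((Real.sqrt (3 : ℕ) : ℝ) : ℂ) * amp 0 hesse k
      = ((Real.sqrt (1 / 2) : ℝ) : ℂ) * t k := by
    intro k
    rw [amp_eq, mul_div_cancel₀ _ h30, sum3, hesse0, hesse1, hesse2, ht]
    simp only [zero_mul, zero_add, mul_zero, mul_one]
    rw [mul_comm k 2]
    ring
  have hconj : ∀ k, conj (t k) = -t k := by
    intro k
    simp only [ht]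
    rw [map_sub, conj_e, conj_e]
    have h1 : -k = 2 * k := by
      revert k
      decide
    have h2 : -(2 * k) = k := by
      revert k
      decide
    rw [h1, h2]
    ring
  have hprod : Pr (amp 0 hesse) j k * 6 = -(t j * t k) := by
    have h4 := hamp j
    have h5 := congrArg conj (hamp k)
    rw [map_mul, map_mul, Complex.conj_ofReal, Complex.conj_ofReal, hconj] at h5
    calc Pr (amp 0 hesse) j k * 6
        = 2 * ((((Real.sqrt (3 : ℕ) : ℝ) : ℂ) * amp 0 hesse j)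
          * (((Real.sqrt (3 : ℕ) : ℝ) : ℂ) * conj (amp 0 hesse k))) := by
          unfold Pr
          linear_combination -(2 * (amp 0 hesse j * conj (amp 0 hesse k))) * h3
      _ = _ := by
          rw [h4, h5]
          linear_combination -(2 * (t j * t k)) * ss
  have t0 : t 0 = 0 := by simp [ht, e_zero]
  have t2 : t 2 = -t 1 := by
    simp only [ht]
    rw [show (2 : ZMod 3) * 2 = 1 by decide, mul_one]
    ring
  have t11 : t 1 * t 1 = -3 := by
    simp only [ht]
    rw [mul_one]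
    have h6 : e (1 : ZMod 3) + e (2 : ZMod 3) = -1 := by
      have := e_sum3 (b := 1) (by decide)
      rwa [mul_one] at this
    have h7 : e (1 : ZMod 3) * e (2 : ZMod 3) = 1 := by
      rw [← e_add, show (1 : ZMod 3) + 2 = 0 by decide, e_zero]
    linear_combination (e (1 : ZMod 3) + e (2 : ZMod 3) - 1) * h6 - 4 * h7
  have h6 : (6 : ℂ) ≠ 0 := by norm_num
  have hfin : ∀ m : ℤ, t j * t k = -3 * m → ∃ m : ℤ, Pr (amp 0 hesse) j k * 2 = m := by
    intro m hm
    refine ⟨m, ?_⟩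
    linear_combination (1 / 3) * hprod - (1 / 3) * hm
  rcases cases3 j with rfl | rfl | rfl <;> rcases cases3 k with rfl | rfl | rfl
  · exact hfin 0 (by rw [t0]; simp)
  · exact hfin 0 (by rw [t0]; simp)
  · exact hfin 0 (by rw [t0]; simp)
  · exact hfin 0 (by rw [t0]; simp)
  · exact hfin 1 (by rw [t11]; simp)
  · exact hfin (-1) (by rw [t2]; push_cast; linear_combination -t11)
  · exact hfin 0 (by rw [t0]; simp)
  · exact hfin (-1) (by rw [t2]; push_cast; linear_combination -t11)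
  · exact hfin 1 (by rw [t2]; push_cast; linear_combination t11)

theorem third_not_mem {S : Set ℂ} (hS : ∀ z ∈ S, ∃ m : ℤ, z * 2 = m) :
    (1 / 3 : ℂ) ∉ Subring.closure S := by
  have key : ∀ z ∈ Subring.closure S, ∃ (n : ℕ) (m : ℤ), z * 2 ^ n = m := by
    intro z hz
    induction hz using Subring.closure_induction with
    | mem z hz =>
      obtain ⟨m, hm⟩ := hS z hz
      exact ⟨1, m, by rw [pow_one, hm]⟩
    | zero => exact ⟨0, 0, by simp⟩
    | one => exact ⟨0, 1, by simp⟩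
    | add x y _ _ hx hy =>
      obtain ⟨n, m, h1⟩ := hx
      obtain ⟨n', m', h2⟩ := hy
      refine ⟨n + n', m * 2 ^ n' + m' * 2 ^ n, ?_⟩
      push_cast
      rw [pow_add]
      linear_combination (2 : ℂ) ^ n' * h1 + (2 : ℂ) ^ n * h2
    | neg x _ hx =>
      obtain ⟨n, m, h1⟩ := hx
      refine ⟨n, -m, ?_⟩
      push_cast
      linear_combination -h1
    | mul x y _ _ hx hy =>
      obtain ⟨n, m, h1⟩ := hx
      obtain ⟨n', m', h2⟩ := hy
      refine ⟨n + n', m * m', ?_⟩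
      push_cast
      rw [pow_add]
      linear_combination (y * (2 : ℂ) ^ n') * h1 + (m : ℂ) * h2
  intro h
  obtain ⟨n, m, h1⟩ := key _ h
  have h2 : ((2 : ℤ) ^ n : ℤ) = 3 * m := by
    have : ((2 : ℂ) ^ n) = 3 * m := by linear_combination 3 * h1
    exact_mod_cast this
  have h3 : (3 : ℤ) ∣ 2 ^ n := ⟨m, h2⟩
  have h4 : (3 : ℕ) ∣ 2 ^ n := by exact_mod_cast h3
  have h5 := (Nat.prime_dvd_prime_iff_eq Nat.prime_three Nat.prime_two).mp
    (Nat.prime_three.dvd_of_dvd_pow h4)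
  omega

end Pool.Agent.V8H99.DI
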