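import Pool.Agent.V8H99.DI.Val

/-! # Chirps and the Fourier transform -/

set_option autoImplicit false

namespace Pool.Agent.V8H99.DI

open Finset Complex
open scoped ComplexConjugate
open Pool.Agent.R503.SIC (e e_add e_zero conj_e sum_e Fid conj_mul_self' ov norm_e)

variable {d : ℕ} [NeZero d]

/-- multiplication by the chirp `ω ^ (c j ^ 2)` -/
noncomputable def chirp (c : ZMod d) (ψ : ZMod d → ℂ) (j : ZMod d) : ℂ := e (c * j ^ 2) * ψ j

theorem ov_chirp (c : ZMod d) (ψ : ZMod d → ℂ) (a b : ZMod d) :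
    ov (chirp c ψ) a b = e (-(c * a ^ 2)) * ov ψ a (b - 2 * c * a) := by
  unfold ov chirp
  rw [mul_sum]
  refine sum_congr rfl fun j _ => ?_
  rw [map_mul, conj_e]
  have h : e (-(c * (j + a) ^ 2)) * e (b * j) * e (c * j ^ 2)
      = e (-(c * a ^ 2)) * e ((b - 2 * c * a) * j) := by
    rw [← e_add, ← e_add, ← e_add]
    congr 1
    ring
  linear_combination (conj (ψ (j + a)) * ψ j) * h

theorem fid_chirp (c : ZMod d) {ψ : ZMod d → ℂ} (h : Fid ψ) : Fid (chirp c ψ) := by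
  constructor
  · rw [← h.1]
    refine sum_congr rfl fun j _ => ?_
    unfold chirp
    rw [norm_mul, norm_e, one_mul]
  · intro a b hab
    rw [ov_chirp, norm_mul, norm_e, one_mul]
    refine h.2 _ _ fun hc => hab ?_
    rw [Prod.mk.injEq] at hc ⊢
    obtain ⟨rfl, h2⟩ := hc
    rw [mul_zero, sub_zero] at h2
    exact ⟨rfl, h2⟩

theorem ov_Ft (ψ : ZMod d → ℂ) (a b : ZMod d) :
    ov (Ft ψ) a b = e (-(a * b)) * ov ψ b (-a) := by
  have hd : (d : ℂ) ≠ 0 := by exact_mod_cast NeZero.ne d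
  apply mul_left_cancel₀ hd
  have h1 : ∀ k, (d : ℂ) * (conj (Ft ψ (k + a)) * (e (b * k) * Ft ψ k))
      = ∑ i, ∑ j, conj (ψ i) * ψ j * e (-(a * i)) * e (k * (j - i + b)) := by
    intro k
    have h2 : (Real.sqrt d : ℂ) * Ft ψ k = ∑ j, e (k * j) * ψ j := by
      unfold Ft
      exact mul_div_cancel₀ _ sqrt_ne
    have h3 : (Real.sqrt d : ℂ) * conj (Ft ψ (k + a)) = ∑ i, e (-((k + a) * i)) * conj (ψ i) := by
      have h4 : (Real.sqrt d : ℂ) * Ft ψ (k + a) = ∑ j, e ((k + a) * j) * ψ j := by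
        unfold Ft
        exact mul_div_cancel₀ _ sqrt_ne
      have h5 := congrArg conj h4
      rw [map_mul, Complex.conj_ofReal, map_sum] at h5
      rw [h5]
      refine sum_congr rfl fun i _ => ?_
      rw [map_mul, conj_e]
    calc _ = e (b * k) * (((Real.sqrt d : ℂ) * conj (Ft ψ (k + a))) * ((Real.sqrt d : ℂ) * Ft ψ k)) := by
          rw [← sqrt_sq']
          ring
      _ = _ := by
          rw [h2, h3, sum_mul_sum, mul_sum]
          refine sum_congr rfl fun i _ => ?_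
          rw [mul_sum]
          refine sum_congr rfl fun j _ => ?_
          have h6 : e (b * k) * e (-((k + a) * i)) * e (k * j) = e (-(a * i)) * e (k * (j - i + b)) := by
            rw [← e_add, ← e_add, ← e_add]
            congr 1
            ring
          linear_combination (conj (ψ i) * ψ j) * h6
  unfold ov
  rw [mul_sum, sum_congr rfl fun k _ => h1 k, sum_comm]
  rw [sum_congr rfl fun i _ => sum_comm]
  have h2 : ∀ i j, ∑ k, conj (ψ i) * ψ j * e (-(a * i)) * e (k * (j - i + b))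
      = if i = j + b then (d : ℂ) * (conj (ψ i) * ψ j * e (-(a * i))) else 0 := by
    intro i j
    rw [← mul_sum, sum_e]
    by_cases hij : i = j + b
    · rw [if_pos (by rw [hij]; ring), if_pos hij]
      ring
    · rw [if_neg (fun h => hij ?_), if_neg hij, mul_zero]
      linear_combination -h
  rw [sum_congr rfl fun i _ => sum_congr rfl fun j _ => h2 i j, sum_comm, mul_sum, mul_sum]
  refine sum_congr rfl fun j _ => ?_
  rw [sum_ite_eq' univ (j + b), if_pos (mem_univ _)]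
  have h6 : e (-(a * (j + b))) = e (-(a * b)) * e (-a * j) := by
    rw [← e_add]
    congr 1
    ring
  rw [h6]
  ring

theorem fid_Ft {ψ : ZMod d → ℂ} (h : Fid ψ) : Fid (Ft ψ) := by
  constructor
  · have h1 : ov (Ft ψ) 0 0 = 1 := by
      rw [ov_Ft, neg_zero, Pool.Agent.R503.SIC.ov_zero h.1, mul_zero, neg_zero, e_zero, one_mul]
    unfold ov at h1
    have h2 : ∀ k, conj (Ft ψ (k + 0)) * (e (0 * k) * Ft ψ k) = ((‖Ft ψ k‖ ^ 2 : ℝ) : ℂ) := by
      intro k
      rw [add_zero, zero_mul, e_zero, one_mul, conj_mul_self']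
    rw [sum_congr rfl fun k _ => h2 k, ← Complex.ofReal_sum] at h1
    exact_mod_cast h1
  · intro a b hab
    rw [ov_Ft, norm_mul, norm_e, one_mul]
    refine h.2 _ _ fun hc => hab ?_
    rw [Prod.mk.injEq] at hc ⊢
    obtain ⟨h1, h2⟩ := hc
    exact ⟨neg_eq_zero.mp h2, h1⟩

/-- the amplitudes in the basis `ω ^ (- c j ^ 2 - k j) / √d` -/
noncomputable def amp (c : ZMod d) (ψ : ZMod d → ℂ) : ZMod d → ℂ := Ft (chirp c ψ)

theorem amp_eq (c : ZMod d) (ψ : ZMod d → ℂ) (k : ZMod d) :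
    amp c ψ k = (∑ j, e (c * j ^ 2 + k * j) * ψ j) / (Real.sqrt d : ℂ) := by
  unfold amp Ft chirp
  congr 1
  refine sum_congr rfl fun j _ => ?_
  rw [e_add]
  ring

/-- integrality in the position basis and in a chirped Fourier basis -/
theorem no_integral_chirp {ψ : ZMod d → ℂ} (h : Fid ψ) {p : ℕ} (hp : p.Prime)
    (hpd : p ∣ d) (O : ValuationSubring ℂ) (hpO : (p : ℂ) ∈ O.nonunits) (c : ZMod d)
    (hpos : ∀ i j, Pr ψ i j ∈ O) (hmom : ∀ i j, Pr (amp c ψ) i j ∈ O) : p = 3 ∧ d % 9 = 3 := by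
  refine no_integral (fid_chirp c h) hp hpd O hpO (fun i j => ?_) hmom
  have h1 : Pr (chirp c ψ) i j = e (c * i ^ 2) * e (-(c * j ^ 2)) * Pr ψ i j := by
    unfold Pr chirp
    rw [map_mul, conj_e]
    ring
  rw [h1]
  exact mul_mem (mul_mem (e_mem O _) (e_mem O _)) (hpos i j)

/-- completing the square -/
theorem gauss_shift (γ s : ZMod d) (h4 : IsUnit (4 * γ)) :
    ∑ j, e (γ * j ^ 2 + s * j) = e (-(s ^ 2 * (4 * γ)⁻¹)) * ∑ j, e (γ * j ^ 2) := by
  rw [mul_sum]
  have hinv : (4 * γ) * (4 * γ)⁻¹ = 1 := ZMod.mul_inv_of_unit _ h4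
  refine Fintype.sum_equiv (Equiv.addRight (2 * s * (4 * γ)⁻¹)) _ _ fun j => ?_
  simp only [Equiv.coe_addRight]
  rw [← e_add]
  congr 1
  linear_combination (-(s * j) - s ^ 2 * (4 * γ)⁻¹) * hinv

end Pool.Agent.V8H99.DI
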