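import Pool.Agent.V8H99.DI.Diff

/-! # The reduction modulo `p` of a fiducial which is integral in two bases -/

set_option autoImplicit false

namespace Pool.Agent.V8H99.DI

open Finset

variable {K : Type} [Field K]

theorem const_all {N : ℕ} [NeZero N] {g : ZMod N → K} (hg : D g = 0) (i j : ZMod N) : g i = g j := by
  have h1 : ∀ (n : ℕ) (i : ZMod N), g (i + n) = g i := by
    intro n
    induction n with
    | zero => intro i; simp
    | succ n ih =>
      intro i
      have h := congrFun hg (i + n)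
      rw [D_apply, Pi.zero_apply, sub_eq_zero] at h
      push_cast
      rw [← add_assoc, h, ih]
  have h2 := h1 (j - i).val i
  rw [ZMod.natCast_zmod_val, add_sub_cancel] at h2
  exact h2.symm

/-- shifting a function -/
def sh {N : ℕ} (α : ZMod N) (f : ZMod N → K) : ZMod N → K := fun i => f (i + α)

theorem D_sh {N : ℕ} (α : ZMod N) (f : ZMod N → K) (n : ℕ) : (D ^ n) (sh α f) = sh α ((D ^ n) f) := by
  induction n with
  | zero => simp
  | succ n ih =>
    rw [D_succ', D_succ', ih]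
    funext i
    simp only [D_apply, sh]
    rw [show i + 1 + α = i + α + 1 by ring]

variable {p k : ℕ} [Fact p.Prime] [CharP K p] [NeZero (p ^ k)]

theorem choose_neg (a : ℕ) (ha : a + 1 < p ^ k) :
    (((p ^ k - 1).choose (a + 1) : ℕ) : K) = -(((p ^ k - 1).choose a : ℕ) : K) := by
  have hp : p.Prime := Fact.out
  have h0 : 0 < p ^ k := pow_pos hp.pos k
  have h1 : (p ^ k).choose (a + 1) = (p ^ k - 1).choose a + (p ^ k - 1).choose (a + 1) := by
    conv_lhs => rw [← Nat.sub_add_cancel h0]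
    rw [Nat.choose_succ_succ]
  have h2 : p ∣ (p ^ k).choose (a + 1) := hp.dvd_choose_pow (by omega) (by omega)
  have h3 : (((p ^ k).choose (a + 1) : ℕ) : K) = 0 := (CharP.cast_eq_zero_iff K p _).mpr h2
  rw [h1] at h3
  push_cast at h3
  linear_combination h3

theorem castN (hk : k ≠ 0) : ((p ^ k : ℕ) : K) = 0 :=
  (CharP.cast_eq_zero_iff K p _).mpr (dvd_pow_self p hk)

theorem T1 (hk : k ≠ 0) (x : ZMod (p ^ k) →+* K) {a b : ℕ} (hab : a + b + 1 = p ^ k)
    {f v : ZMod (p ^ k) → K} (hf : (D ^ (a + 1)) f = 0) (hv : (D ^ (b + 1)) v = 0) :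
    ∑ i, X x f i * D v i = -((a : K) + 1) * ∑ i, f i * v i := by
  rcases Nat.eq_zero_or_pos b with hb | hb
  · subst hb
    have hv' : D v = 0 := by simpa using hv
    have h1 : ((a + 0 + 1 : ℕ) : K) = 0 := by rw [hab]; exact castN hk
    push_cast at h1
    rw [add_zero] at h1
    rw [hv', h1]
    simp
  · obtain ⟨b, rfl⟩ : ∃ b', b = b' + 1 := ⟨b - 1, by omega⟩
    have h2 : (D ^ (b + 1)) (D v) = 0 := by rw [← D_succ]; exact hv
    rw [sum_lead p k (show (a + 1) + b + 1 = p ^ k by omega) (X_ord x hf) h2,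
      sum_lead p k hab hf hv, X_lead x hf, ← D_succ, choose_neg a (by omega),
      const_of hf]
    push_cast
    ring

theorem T2 (hk : k ≠ 0) (x : ZMod (p ^ k) →+* K) {a b : ℕ} (hab : a + b + 1 = p ^ k)
    {f v : ZMod (p ^ k) → K} (hf : (D ^ (a + 1)) f = 0) (hv : (D ^ (b + 1)) v = 0) :
    ∑ i, X x (X x f) i * D (D v) i = (((a : K) + 1) * ((a : K) + 2)) * ∑ i, f i * v i := by
  rcases Nat.eq_zero_or_pos b with hb | hb
  · subst hb
    have hv' : D v = 0 := by simpa using hv
    have h1 : ((a + 0 + 1 : ℕ) : K) = 0 := by rw [hab]; exact castN hk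
    push_cast at h1
    rw [add_zero] at h1
    rw [hv', h1]
    simp
  obtain ⟨b, rfl⟩ : ∃ b', b = b' + 1 := ⟨b - 1, by omega⟩
  rcases Nat.eq_zero_or_pos b with hb | hb
  · subst hb
    have hv' : D (D v) = 0 := by
      have : (D ^ 2) v = 0 := hv
      rwa [D_succ, pow_one] at this
    have h1 : ((a + (0 + 1) + 1 : ℕ) : K) = 0 := by rw [hab]; exact castN hk
    push_cast at h1
    have h2 : (a : K) + 2 = 0 := by linear_combination h1
    rw [hv', h2]
    simp
  · obtain ⟨b, rfl⟩ : ∃ b', b = b' + 1 := ⟨b - 1, by omega⟩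
    have h2 : (D ^ (b + 1)) (D (D v)) = 0 := by rw [← D_succ, ← D_succ]; exact hv
    rw [sum_lead p k (show (a + 2) + b + 1 = p ^ k by omega) (X_ord x (X_ord x hf)) h2,
      sum_lead p k hab hf hv, X_lead x (X_ord x hf), X_lead x hf, ← D_succ, ← D_succ,
      choose_neg (a + 1) (by omega), choose_neg a (by omega), const_of hf, const_of hf]
    push_cast
    ring

section core

variable {L : Type} [Fintype L] (u w : L → ZMod (p ^ k) → K)

/-- the order structure -/
theorem orders (h1 : ∀ l l' α, ∑ i, u l i * w l' (i + α) = ∑ i, u l i * w l' i)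
    (h2 : ∑ l, ∑ i, u l i * w l i = 1) :
    ∃ a b : ℕ, a + b + 1 = p ^ k ∧ (∀ l, (D ^ (a + 1)) (u l) = 0) ∧
      (∀ l, (D ^ (b + 1)) (w l) = 0) := by
  classical
  have hp : p.Prime := Fact.out
  have h0 : 0 < p ^ k := pow_pos hp.pos k
  have hN : ∀ f : ZMod (p ^ k) → K, (D ^ (p ^ k - 1 + 1)) f = 0 := by
    intro f
    rw [Nat.sub_add_cancel h0, D_pow_N p k]
    rfl
  have key : ∀ v : L → ZMod (p ^ k) → K, (∃ l, v l ≠ 0) → ∃ a : ℕ, a ≤ p ^ k - 1 ∧
      (∀ l, (D ^ (a + 1)) (v l) = 0) ∧ ∃ l, (D ^ a) (v l) 0 ≠ 0 := by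
    intro v hv
    have hex : ∃ n : ℕ, ∀ l, (D ^ (n + 1)) (v l) = 0 := ⟨p ^ k - 1, fun l => hN _⟩
    refine ⟨Nat.find hex, Nat.find_min' hex (fun l => hN _), Nat.find_spec hex, ?_⟩
    have h3 : ∃ l, (D ^ (Nat.find hex)) (v l) ≠ 0 := by
      by_contra hc
      push Not at hc
      rcases Nat.eq_zero_or_pos (Nat.find hex) with h4 | h4
      · obtain ⟨l, hl⟩ := hv
        apply hl
        have := hc l
        rwa [h4, pow_zero, Module.End.one_apply] at this
      · have h5 := Nat.find_min hex (show Nat.find hex - 1 < Nat.find hex by omega)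
        apply h5
        intro l
        rw [Nat.sub_add_cancel h4]
        exact hc l
    obtain ⟨l, hl⟩ := h3
    refine ⟨l, fun h4 => hl ?_⟩
    funext i
    have h5 : D ((D ^ (Nat.find hex)) (v l)) = 0 := by
      rw [← D_succ']
      exact Nat.find_spec hex l
    rw [const_all h5 i 0, h4]
    rfl
  have hu : ∃ l, u l ≠ 0 := by
    by_contra hc
    push Not at hc
    simp [hc] at h2
  have hw : ∃ l, w l ≠ 0 := by
    by_contra hc
    push Not at hc
    simp [hc] at h2
  obtain ⟨a, ha, hua, l0, hl0⟩ := key u hu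
  obtain ⟨b, hb, hwb, l1, hl1⟩ := key w hw
  refine ⟨a, b, ?_, hua, hwb⟩
  rcases lt_trichotomy (a + b + 1) (p ^ k) with h3 | h3 | h3
  · exfalso
    have h4 : ∀ l, ∑ i, u l i * w l i = 0 := fun l => sum_zero p k h3 (hua l) (hwb l)
    simp only [h4, sum_const_zero] at h2
    exact zero_ne_one h2
  · exact h3
  · exfalso
    obtain ⟨e, he⟩ : ∃ e, a + b + 1 = p ^ k + (e + 1) := ⟨a + b + 1 - p ^ k - 1, by omega⟩
    have h5 : ∀ (n : ℕ) (α : ZMod (p ^ k)), ∑ i, u l0 i * (D ^ (n + 1)) (w l1) (i + α) = 0 := by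
      intro n
      induction n with
      | zero =>
        intro α
        simp only [zero_add, pow_one, D_apply, mul_sub, sum_sub_distrib]
        rw [h1 l0 l1 α]
        have := h1 l0 l1 (α + 1)
        simp only [← add_assoc] at this
        rw [this, sub_self]
      | succ n ih =>
        intro α
        simp only [D_succ' (n + 1), D_apply, mul_sub, sum_sub_distrib]
        rw [ih α]
        have := ih (α + 1)
        simp only [← add_assoc] at this
        rw [this, sub_self]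
    have h6 := h5 e 0
    simp only [add_zero] at h6
    have h7 : (D ^ ((b - (e + 1)) + 1)) ((D ^ (e + 1)) (w l1)) = 0 := by
      rw [← D_pow_mul, show b - (e + 1) + 1 + (e + 1) = b + 1 by omega]
      exact hwb l1
    rw [sum_lead p k (show a + (b - (e + 1)) + 1 = p ^ k by omega) (hua l0) h7, ← D_pow_mul,
      show b - (e + 1) + (e + 1) = b by omega] at h6
    rcases mul_eq_zero.mp h6 with h8 | h8
    · exact choose_ne p k a ha h8
    · rcases mul_eq_zero.mp h8 with h9 | h9
      · exact hl0 h9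
      · exact hl1 h9

/-- `g α i = <w (i + α), u i>` -/
def g (α i : ZMod (p ^ k)) : K := ∑ l, u l i * w l (i + α)

/-- moments -/
def H (x : ZMod (p ^ k) →+* K) (n : ℕ) (α : ZMod (p ^ k)) : K := ∑ i, x i ^ n * g u w α i

theorem H_zero (x : ZMod (p ^ k) →+* K)
    (h1 : ∀ l l' α, ∑ i, u l i * w l' (i + α) = ∑ i, u l i * w l' i)
    (h2 : ∑ l, ∑ i, u l i * w l i = 1) (α : ZMod (p ^ k)) : H u w x 0 α = 1 := by
  unfold H g
  simp only [pow_zero, one_mul]
  rw [sum_comm]
  simp only [h1]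
  exact h2

theorem H_one (hk : k ≠ 0) (x : ZMod (p ^ k) →+* K)
    (h1 : ∀ l l' α, ∑ i, u l i * w l' (i + α) = ∑ i, u l i * w l' i)
    (h2 : ∑ l, ∑ i, u l i * w l i = 1) {a b : ℕ} (hab : a + b + 1 = p ^ k)
    (hu : ∀ l, (D ^ (a + 1)) (u l) = 0) (hw : ∀ l, (D ^ (b + 1)) (w l) = 0) (α : ZMod (p ^ k)) :
    H u w x 1 (α + 1) = H u w x 1 α - ((a : K) + 1) := by
  have h3 : ∀ l, ∑ i, X x (u l) i * D (sh α (w l)) i = -((a : K) + 1) * ∑ i, u l i * w l i := by
    intro l
    have h4 : (D ^ (b + 1)) (sh α (w l)) = 0 := by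
      rw [D_sh, hw]
      rfl
    rw [T1 hk x hab (hu l) h4]
    congr 1
    exact h1 l l α
  have h5 : H u w x 1 (α + 1) - H u w x 1 α = ∑ l, ∑ i, X x (u l) i * D (sh α (w l)) i := by
    unfold H g
    rw [sum_comm, ← sum_sub_distrib]
    refine sum_congr rfl fun i _ => ?_
    rw [← mul_sub, ← sum_sub_distrib, mul_sum]
    refine sum_congr rfl fun l _ => ?_
    simp only [X, D_apply, sh]
    rw [show i + 1 + α = i + (α + 1) by ring]
    ring
  rw [sum_congr rfl fun l _ => h3 l, ← mul_sum, h2] at h5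
  linear_combination h5

theorem H_two (hk : k ≠ 0) (x : ZMod (p ^ k) →+* K)
    (h1 : ∀ l l' α, ∑ i, u l i * w l' (i + α) = ∑ i, u l i * w l' i)
    (h2 : ∑ l, ∑ i, u l i * w l i = 1) {a b : ℕ} (hab : a + b + 1 = p ^ k)
    (hu : ∀ l, (D ^ (a + 1)) (u l) = 0) (hw : ∀ l, (D ^ (b + 1)) (w l) = 0) (α : ZMod (p ^ k)) :
    H u w x 2 (α + 1 + 1) = 2 * H u w x 2 (α + 1) - H u w x 2 α
      + ((a : K) + 1) * ((a : K) + 2) := by
  have h3 : ∀ l, ∑ i, X x (X x (u l)) i * D (D (sh α (w l))) i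
      = (((a : K) + 1) * ((a : K) + 2)) * ∑ i, u l i * w l i := by
    intro l
    have h4 : (D ^ (b + 1)) (sh α (w l)) = 0 := by
      rw [D_sh, hw]
      rfl
    rw [T2 hk x hab (hu l) h4]
    congr 1
    exact h1 l l α
  have h5 : H u w x 2 (α + 1 + 1) - 2 * H u w x 2 (α + 1) + H u w x 2 α
      = ∑ l, ∑ i, X x (X x (u l)) i * D (D (sh α (w l))) i := by
    unfold H g
    rw [sum_comm, mul_sum, ← sum_sub_distrib, ← sum_add_distrib]
    refine sum_congr rfl fun i _ => ?_
    rw [mul_sum, mul_sum, mul_sum, mul_sum, ← sum_sub_distrib, ← sum_add_distrib]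
    refine sum_congr rfl fun l _ => ?_
    simp only [X, D_apply, sh]
    rw [show i + 1 + 1 + α = i + (α + 1 + 1) by ring, show i + 1 + α = i + (α + 1) by ring]
    ring
  rw [sum_congr rfl fun l _ => h3 l, ← mul_sum, h2] at h5
  linear_combination h5

/-- the two relations between the moments which follow from the flatness -/
theorem relations (x : ZMod (p ^ k) →+* K)
    (h1 : ∀ l l' α, ∑ i, u l i * w l' (i + α) = ∑ i, u l i * w l' i)
    (h2 : ∑ l, ∑ i, u l i * w l i = 1) {α : ZMod (p ^ k)}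
    (h3 : ∀ κ, κ ≠ 0 → ∑ i, g u w α i * (∑ l, w l (i + κ) * u l (i + κ + α)) = 0) :
    H u w x 1 (-α) - x α - H u w x 1 α = 0 ∧
    H u w x 2 (-α) - 2 * x α * H u w x 1 (-α) + x α ^ 2
      - 2 * H u w x 1 α * (H u w x 1 (-α) - x α) + H u w x 2 α = 0 := by
  set gs : ZMod (p ^ k) → K := fun i => ∑ l, w l i * u l (i + α) with hgs
  have hg : ∀ i, gs i = g u w (-α) (i + α) := by
    intro i
    rw [hgs]
    unfold g
    refine sum_congr rfl fun l _ => ?_
    rw [show i + α + -α = i by ring, mul_comm]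
  have hG : ∀ n : ℕ, ∑ i, x i ^ n * gs i = ∑ i, (x i - x α) ^ n * g u w (-α) i := by
    intro n
    refine Fintype.sum_equiv (Equiv.addRight α) _ _ fun i => ?_
    simp only [Equiv.coe_addRight]
    rw [hg, map_add, add_sub_cancel_right]
  have hr : ∀ n : ℕ, n ≠ 0 → ∑ i, ∑ j, (x j - x i) ^ n * (g u w α i * gs j) = 0 := by
    intro n hn
    have h4 : ∀ i, ∑ j, (x j - x i) ^ n * (g u w α i * gs j)
        = ∑ κ, x κ ^ n * (g u w α i * gs (i + κ)) := by
      intro i
      refine (Fintype.sum_equiv (Equiv.addLeft i) _ _ fun κ => ?_).symm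
      simp only [Equiv.coe_addLeft]
      rw [map_add, add_sub_cancel_left]
    rw [sum_congr rfl fun i _ => h4 i, sum_comm]
    refine sum_eq_zero fun κ _ => ?_
    rw [← mul_sum]
    by_cases hκ : κ = 0
    · rw [hκ, map_zero, zero_pow hn, zero_mul]
    · rw [h3 κ hκ, mul_zero]
  have g0 := H_zero u w x h1 h2 α
  have g0' := H_zero u w x h1 h2 (-α)
  have e0 : ∑ i, g u w α i = 1 := by
    have : H u w x 0 α = ∑ i, g u w α i := by simp [H]
    rw [← this, g0]
  have e0' : ∑ i, g u w (-α) i = 1 := by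
    have : H u w x 0 (-α) = ∑ i, g u w (-α) i := by simp [H]
    rw [← this, g0']
  have s0 : ∑ i, gs i = 1 := by
    have := hG 0
    simp only [pow_zero, one_mul] at this
    rw [this, e0']
  have s1 : ∑ i, x i * gs i = H u w x 1 (-α) - x α := by
    have := hG 1
    simp only [pow_one, sub_mul, sum_sub_distrib] at this
    rw [← mul_sum, e0', mul_one] at this
    rw [this]
    simp [H]
  have s2 : ∑ i, x i ^ 2 * gs i = H u w x 2 (-α) - 2 * x α * H u w x 1 (-α) + x α ^ 2 := by
    have h5 := hG 2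
    have h6 : ∀ i, (x i - x α) ^ 2 * g u w (-α) i = x i ^ 2 * g u w (-α) i
        - 2 * x α * (x i ^ 1 * g u w (-α) i) + x α ^ 2 * g u w (-α) i := fun i => by ring
    rw [sum_congr rfl fun i _ => h6 i, sum_add_distrib, sum_sub_distrib, ← mul_sum, ← mul_sum,
      e0', mul_one] at h5
    rw [h5]
    rfl
  have r1 := hr 1 one_ne_zero
  have r2 := hr 2 two_ne_zero
  constructor
  · have h7 : ∀ i j, (x j - x i) ^ 1 * (g u w α i * gs j)
        = g u w α i * (x j * gs j) - (x i ^ 1 * g u w α i) * gs j := fun i j => by ring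
    simp only [h7, sum_sub_distrib, ← mul_sum, ← sum_mul] at r1
    rw [s1, s0, e0] at r1
    have : ∑ i, x i ^ 1 * g u w α i = H u w x 1 α := rfl
    rw [this] at r1
    linear_combination r1
  · have h7 : ∀ i j, (x j - x i) ^ 2 * (g u w α i * gs j)
        = g u w α i * (x j ^ 2 * gs j) - 2 * ((x i ^ 1 * g u w α i) * (x j * gs j))
          + (x i ^ 2 * g u w α i) * gs j := fun i j => by ring
    simp only [h7, sum_sub_distrib, sum_add_distrib, ← mul_sum, ← sum_mul] at r2
    rw [s2, s1, s0, e0] at r2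
    have e1 : ∑ i, x i ^ 1 * g u w α i = H u w x 1 α := rfl
    have e2 : ∑ i, x i ^ 2 * g u w α i = H u w x 2 α := rfl
    rw [e1, e2] at r2
    linear_combination r2

/-- **The core of the argument.** -/
theorem core (hk : k ≠ 0) (x : ZMod (p ^ k) →+* K)
    (h1 : ∀ l l' α, ∑ i, u l i * w l' (i + α) = ∑ i, u l i * w l' i)
    (h2 : ∑ l, ∑ i, u l i * w l i = 1)
    (h3 : ∀ α, α ≠ 0 → ∀ κ, κ ≠ 0 →
      ∑ i, g u w α i * (∑ l, w l (i + κ) * u l (i + κ + α)) = 0)
    (h4 : ∑ l, ∑ l', (∑ i, u l i * w l' i) * (∑ i, u l' i * w l i) = (Fintype.card L : K)) :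
    p = 3 ∧ k = 1 ∧ (Fintype.card L : K) = 1 := by
  have hp : p.Prime := Fact.out
  obtain ⟨a, b, hab, hu, hw⟩ := orders u w h1 h2
  have hcard : (Fintype.card L : K) = 1 := by
    have h5 : ∀ l l', ∑ i, u l i * w l' i
        = (((p ^ k - 1).choose a : ℕ) : K) * ((D ^ a) (u l) 0 * (D ^ b) (w l') 0) := fun l l' =>
      sum_lead p k hab (hu l) (hw l')
    rw [← h4]
    have h6 : ∀ l l', (∑ i, u l i * w l' i) * (∑ i, u l' i * w l i)
        = (∑ i, u l i * w l i) * (∑ i, u l' i * w l' i) := by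
      intro l l'
      rw [h5, h5, h5, h5]
      ring
    rw [sum_congr rfl fun l _ => sum_congr rfl fun l' _ => h6 l l', ← sum_mul_sum, h2, mul_one]
  have one_ne : (1 : ZMod (p ^ k)) ≠ 0 := by
    have h5 : 1 < p ^ k := Nat.one_lt_pow hk hp.one_lt
    have : Fact (1 < p ^ k) := ⟨h5⟩
    exact one_ne_zero
  have hne : ∀ n : ℕ, 0 < n → n < p ^ k → (n : ZMod (p ^ k)) ≠ 0 := by
    intro n hn hn' h5
    rw [ZMod.natCast_eq_zero_iff] at h5
    exact absurd (Nat.le_of_dvd hn h5) (by omega)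
  set A := H u w x 1 0 with hA
  set A2 := H u w x 2 0 with hA2
  set t : K := (a : K) + 1 with ht
  have o := H_one u w hk x h1 h2 hab hu hw
  have q := H_two u w hk x h1 h2 hab hu hw
  rw [← ht] at o
  have hq : ((a : K) + 1) * ((a : K) + 2) = t * (t + 1) := by rw [ht]; ring
  rw [hq] at q
  have p1 : H u w x 1 1 = A - t := by
    have := o 0
    rwa [zero_add] at this
  have m1 : H u w x 1 (-1) = A + t := by
    have := o (-1)
    rw [neg_add_cancel] at this
    linear_combination -this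
  have x1 : x 1 = 1 := map_one x
  obtain ⟨r1, r2⟩ := relations u w x h1 h2 (h3 1 one_ne)
  rw [p1, m1, x1] at r1 r2
  have h2t : 2 * t = 1 := by linear_combination r1
  have hp2 : p ≠ 2 := by
    rintro rfl
    have : ((2 : ℕ) : K) = 0 := CharP.cast_eq_zero K 2
    push_cast at this
    rw [this, zero_mul] at h2t
    exact zero_ne_one h2t
  have hp3 : 3 ≤ p := by
    have := hp.two_le
    omega
  have hN3 : 3 ≤ p ^ k := le_trans hp3 (Nat.le_self_pow hk p)
  have h4ne : (4 : K) ≠ 0 := by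
    intro h5
    have h6 : ((4 : ℕ) : K) = 0 := by push_cast; exact h5
    rw [CharP.cast_eq_zero_iff K p] at h6
    have h7 : p ∣ 2 ^ 2 := by simpa using h6
    have h8 := (Nat.prime_dvd_prime_iff_eq hp Nat.prime_two).mp (hp.dvd_of_dvd_pow h7)
    exact hp2 h8
  -- the even parts
  have E1 : H u w x 2 1 + H u w x 2 (-1) = 2 * A2 + t * (t + 1) := by
    have := q (-1)
    rw [neg_add_cancel, zero_add] at this
    linear_combination this
  have hF1 : 4 * (2 * A2 - 2 * A ^ 2) + 1 = 0 := by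
    linear_combination 4 * r2 - 4 * E1 - 3 * (2 * t - 1) * h2t
  have p2 : H u w x 1 2 = A - 2 * t := by
    have := o 1
    rw [p1] at this
    rw [show (2 : ZMod (p ^ k)) = 1 + 1 by norm_num, this]
    ring
  have m2 : H u w x 1 (-2) = A + 2 * t := by
    have := o (-2)
    rw [show (-2 : ZMod (p ^ k)) + 1 = -1 by norm_num, m1] at this
    linear_combination -this
  have E2 : H u w x 2 2 + H u w x 2 (-2) = 2 * A2 + 4 * (t * (t + 1)) := by
    have h5 := q 0
    have h6 := q (-2)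
    rw [zero_add, show (1 : ZMod (p ^ k)) + 1 = 2 by norm_num] at h5
    rw [show (-2 : ZMod (p ^ k)) + 1 = -1 by norm_num, neg_add_cancel] at h6
    linear_combination h5 + h6 + 2 * E1
  have two_ne : (2 : ZMod (p ^ k)) ≠ 0 := by
    have := hne 2 (by norm_num) (by omega)
    exact_mod_cast this
  obtain ⟨r3, r4⟩ := relations u w x h1 h2 (h3 2 two_ne)
  have x2 : x 2 = 2 := map_ofNat x 2
  rw [p2, m2, x2] at r3 r4
  have hF2 : (2 * A2 - 2 * A ^ 2) + 1 = 0 := by
    linear_combination r4 - E2 - 3 * (2 * t - 1) * h2t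
  have h30 : (3 : K) = 0 := by linear_combination 4 * hF2 - hF1
  have hp3' : p = 3 := by
    have h6 : ((3 : ℕ) : K) = 0 := by push_cast; exact h30
    rw [CharP.cast_eq_zero_iff K p] at h6
    exact (Nat.prime_dvd_prime_iff_eq hp Nat.prime_three).mp h6
  refine ⟨hp3', ?_, hcard⟩
  by_contra hk1
  have hk2 : 2 ≤ k := by omega
  have h9 : 9 ≤ p ^ k := by
    calc 9 = 3 ^ 2 := by norm_num
      _ ≤ 3 ^ k := Nat.pow_le_pow_right (by norm_num) hk2
      _ = p ^ k := by rw [hp3']
  have three_ne : (3 : ZMod (p ^ k)) ≠ 0 := by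
    have := hne 3 (by norm_num) (by omega)
    exact_mod_cast this
  have p3 : H u w x 1 3 = A - 3 * t := by
    have := o 2
    rw [p2] at this
    rw [show (3 : ZMod (p ^ k)) = 2 + 1 by norm_num, this]
    ring
  have m3 : H u w x 1 (-3) = A + 3 * t := by
    have := o (-3)
    rw [show (-3 : ZMod (p ^ k)) + 1 = -2 by norm_num, m2] at this
    linear_combination -this
  have E3 : H u w x 2 3 + H u w x 2 (-3) = 2 * A2 + 9 * (t * (t + 1)) := by
    have h5 := q 1
    have h6 := q (-3)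
    rw [show (1 : ZMod (p ^ k)) + 1 = 2 by norm_num, show (2 : ZMod (p ^ k)) + 1 = 3 by norm_num]
      at h5
    rw [show (-3 : ZMod (p ^ k)) + 1 = -2 by norm_num,
      show (-2 : ZMod (p ^ k)) + 1 = -1 by norm_num] at h6
    linear_combination h5 + h6 + 2 * E2 - E1
  obtain ⟨r5, r6⟩ := relations u w x h1 h2 (h3 3 three_ne)
  have x3 : x 3 = 3 := map_ofNat x 3
  rw [p3, m3, x3] at r5 r6
  have h10 : (1 : K) = 0 := by
    linear_combination 3 * h30 - (4 * r6 - 4 * E3 - 27 * (2 * t - 1) * h2t) + hF1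
  exact one_ne_zero h10

end core

end Pool.Agent.V8H99.DI
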