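import Pool.Agent.V8H99.DI.Core

/-! # Splitting off the `p` part of the dimension -/

set_option autoImplicit false

namespace Pool.Agent.V8H99.DI

open Finset

variable {K : Type} [Field K] {p k m : ℕ} [Fact p.Prime] [CharP K p] [NeZero (p ^ k)] [NeZero m]
  [NeZero (p ^ k * m)]

/-- the ring isomorphism -/
def crt (h : Nat.Coprime (p ^ k) m) : ZMod (p ^ k) × ZMod m ≃+* ZMod (p ^ k * m) :=
  (ZMod.chineseRemainder h).symm

theorem crt_eq_zero (h : Nat.Coprime (p ^ k) m) (z : ZMod (p ^ k) × ZMod m) :
    crt h z = 0 ↔ z = 0 := by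
  exact map_eq_zero_iff _ (crt h).injective

theorem sum_crt {M : Type} [AddCommMonoid M] (h : Nat.Coprime (p ^ k) m)
    (F : ZMod (p ^ k * m) → M) : ∑ j, F j = ∑ l, ∑ i, F (crt h (i, l)) := by
  rw [← Fintype.sum_equiv (crt h).toEquiv (fun z => F (crt h z)) F (fun z => rfl),
    Fintype.sum_prod_type, sum_comm]

theorem main_K (hk : k ≠ 0) (h : Nat.Coprime (p ^ k) m) (U W : ZMod (p ^ k * m) → K)
    (hquad : ∀ a κ, ∑ j, U j * W (j + a) * (U (j + κ + a) * W (j + κ))
      = (if a = 0 then 1 else 0) + (if κ = 0 then 1 else 0))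
    (htr : ∑ j, U j * W j = 1)
    (hmom : ∀ (l l' : ZMod m) (α : ZMod (p ^ k)), ∑ i, U (crt h (i, l)) * W (crt h (i + α, l'))
      = ∑ i, U (crt h (i, l)) * W (crt h (i, l'))) :
    p = 3 ∧ k = 1 ∧ (m : K) = 1 := by
  have hx : p ∣ p ^ k := dvd_pow_self p hk
  set x : ZMod (p ^ k) →+* K := ZMod.castHom hx K with hxdef
  set u : ZMod m → ZMod (p ^ k) → K := fun l i => U (crt h (i, l)) with hu
  set w : ZMod m → ZMod (p ^ k) → K := fun l i => W (crt h (i, l)) with hw
  have hadd : ∀ (i i' : ZMod (p ^ k)) (l l' : ZMod m),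
      crt h (i + i', l + l') = crt h (i, l) + crt h (i', l') := by
    intro i i' l l'
    rw [← map_add]
    rfl
  have h4 := core u w hk x hmom (by rw [← htr, sum_crt h]) ?_ ?_
  · rwa [ZMod.card] at h4
  · intro α hα κ hκ
    have h5 : ∀ β : ZMod m, ∑ l, ∑ i, u l i * w l (i + α) * (w (l + β) (i + κ) * u (l + β) (i + κ + α))
        = 0 := by
      intro β
      have h6 := hquad (crt h (α, 0)) (crt h (κ, β))
      rw [if_neg, if_neg, sum_crt h] at h6
      · rw [add_zero] at h6
        rw [← h6]
        refine sum_congr rfl fun l _ => sum_congr rfl fun i _ => ?_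
        rw [← hadd, ← hadd, ← hadd, add_zero, add_zero]
        simp only [hu, hw]
        ring
      · rw [crt_eq_zero]
        intro h7
        exact hκ (Prod.ext_iff.mp h7).1
      · rw [crt_eq_zero]
        intro h7
        exact hα (Prod.ext_iff.mp h7).1
    calc ∑ i, g u w α i * ∑ l, w l (i + κ) * u l (i + κ + α)
        = ∑ i, ∑ l, ∑ l', u l i * w l (i + α) * (w l' (i + κ) * u l' (i + κ + α)) := by
          refine sum_congr rfl fun i _ => ?_
          unfold g
          rw [sum_mul_sum]
      _ = ∑ i, ∑ l, ∑ β, u l i * w l (i + α) * (w (l + β) (i + κ) * u (l + β) (i + κ + α)) := by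
          refine sum_congr rfl fun i _ => sum_congr rfl fun l _ => ?_
          refine (Fintype.sum_equiv (Equiv.addLeft l) _ _ fun β => ?_).symm
          rfl
      _ = ∑ β, ∑ l, ∑ i, u l i * w l (i + α) * (w (l + β) (i + κ) * u (l + β) (i + κ + α)) := by
          rw [sum_comm]
          rw [sum_congr rfl fun l _ => sum_comm]
          rw [sum_comm]
      _ = 0 := sum_eq_zero fun β _ => h5 β
  · rw [ZMod.card]
    have h5 : ∀ (β : ZMod m) (κ : ZMod (p ^ k)),
        ∑ l, ∑ i, u l i * w (l + β) i * (u (l + β) (i + κ) * w l (i + κ))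
        = (if β = 0 then 1 else 0) + (if κ = 0 then 1 else 0) := by
      intro β κ
      have h6 := hquad (crt h (0, β)) (crt h (κ, 0))
      have h7 : (crt h ((0 : ZMod (p ^ k)), β) = 0) ↔ β = 0 := by
        rw [crt_eq_zero]
        constructor
        · intro h8
          exact (Prod.ext_iff.mp h8).2
        · rintro rfl
          rfl
      have h8 : (crt h (κ, (0 : ZMod m)) = 0) ↔ κ = 0 := by
        rw [crt_eq_zero]
        constructor
        · intro h8
          exact (Prod.ext_iff.mp h8).1
        · rintro rfl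
          rfl
      simp only [h7, h8] at h6
      rw [← h6, sum_crt h]
      refine sum_congr rfl fun l _ => sum_congr rfl fun i _ => ?_
      rw [← hadd, ← hadd, ← hadd, add_zero, add_zero, add_zero]
    calc ∑ l, ∑ l', (∑ i, u l i * w l' i) * (∑ i, u l' i * w l i)
        = ∑ l, ∑ l', ∑ i, ∑ i', u l i * w l' i * (u l' i' * w l i') := by
          refine sum_congr rfl fun l _ => sum_congr rfl fun l' _ => ?_
          rw [sum_mul_sum]
      _ = ∑ l, ∑ β, ∑ i, ∑ κ, u l i * w (l + β) i * (u (l + β) (i + κ) * w l (i + κ)) := by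
          refine sum_congr rfl fun l _ => ?_
          refine (Fintype.sum_equiv (Equiv.addLeft l) _ _ fun β => ?_).symm
          refine sum_congr rfl fun i _ => ?_
          refine Fintype.sum_equiv (Equiv.addLeft i) _ _ fun κ => ?_
          rfl
      _ = ∑ β, ∑ κ, ∑ l, ∑ i, u l i * w (l + β) i * (u (l + β) (i + κ) * w l (i + κ)) := by
          rw [sum_comm]
          refine sum_congr rfl fun β _ => ?_
          rw [sum_congr rfl fun l _ => sum_comm]
          rw [sum_comm]
      _ = ∑ β : ZMod m, ∑ κ : ZMod (p ^ k), (((if β = 0 then 1 else 0) + (if κ = 0 then 1 else 0) : K)) :=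
          sum_congr rfl fun β _ => sum_congr rfl fun κ _ => h5 β κ
      _ = (m : K) := by
          simp only [sum_add_distrib, sum_const, card_univ, ZMod.card, sum_ite_eq', mem_univ, if_true,
            nsmul_eq_mul, ← mul_sum]
          rw [castN hk]
          simp

end Pool.Agent.V8H99.DI
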