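import Mathlib

/-! # Finite differences of functions on `ZMod (p ^ k)` with values in a field of characteristic `p` -/

set_option autoImplicit false

namespace Pool.Agent.V8H99.DI

open Finset

variable {K : Type} [Field K] {N : ℕ}

/-- The shift `(S f) i = f (i + 1)`. -/
def S : Module.End K (ZMod N → K) := LinearMap.funLeft K K (fun i => i + 1)

/-- The difference operator `(D f) i = f (i + 1) - f i`. -/
def D : Module.End K (ZMod N → K) := S - 1

theorem S_apply (f : ZMod N → K) (i : ZMod N) : S f i = f (i + 1) := rfl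

theorem D_apply (f : ZMod N → K) (i : ZMod N) : D f i = f (i + 1) - f i := rfl

theorem S_pow_apply (n : ℕ) (f : ZMod N → K) (i : ZMod N) : (S ^ n) f i = f (i + n) := by
  induction n generalizing f with
  | zero => simp
  | succ n ih =>
    rw [pow_succ, Module.End.mul_apply, ih, S_apply]
    push_cast
    rw [add_assoc]

theorem S_pow_N : (S : Module.End K (ZMod N → K)) ^ N = 1 := by
  ext f i
  rw [S_pow_apply, ZMod.natCast_self, add_zero]
  rfl

theorem comm_S_D : Commute (S : Module.End K (ZMod N → K)) D := by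
  unfold D
  exact (Commute.refl _).sub_right (Commute.one_right _)

theorem D_pow_mul (a b : ℕ) (f : ZMod N → K) : (D ^ (a + b)) f = (D ^ a) ((D ^ b) f) := by
  rw [pow_add, Module.End.mul_apply]

theorem D_succ (a : ℕ) (f : ZMod N → K) : (D ^ (a + 1)) f = (D ^ a) (D f) := by
  rw [pow_succ, Module.End.mul_apply]

theorem D_succ' (a : ℕ) (f : ZMod N → K) : (D ^ (a + 1)) f = D ((D ^ a) f) := by
  rw [pow_succ', Module.End.mul_apply]

theorem D_mono {a b : ℕ} (hab : a ≤ b) {f : ZMod N → K} (h : (D ^ a) f = 0) : (D ^ b) f = 0 := by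
  obtain ⟨c, rfl⟩ := Nat.exists_eq_add_of_le' hab
  rw [D_pow_mul, h, map_zero]

theorem D_mul (f g : ZMod N → K) : D (f * g) = D f * g + f * D g + D f * D g := by
  funext i
  simp only [D_apply, Pi.mul_apply, Pi.add_apply]
  ring

/-- If `D f = 0` then `D ^ n` commutes with the multiplication by `f`. -/
theorem D_const_mul {f : ZMod N → K} (hf : D f = 0) (n : ℕ) (g : ZMod N → K) :
    (D ^ n) (f * g) = f * (D ^ n) g := by
  induction n generalizing g with
  | zero => simp
  | succ n ih =>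
    rw [D_succ, D_succ, D_mul, hf, zero_mul, zero_mul, zero_add, add_zero, ih]

/-- The Leibniz rule: the order of a product and its leading coefficient. -/
theorem lead (n : ℕ) : ∀ (a b : ℕ), a + b = n → ∀ f g : ZMod N → K, (D ^ (a + 1)) f = 0 →
    (D ^ (b + 1)) g = 0 → (D ^ (n + 1)) (f * g) = 0 ∧
      (D ^ n) (f * g) = ((n.choose a : ℕ) : K) • ((D ^ a) f * (D ^ b) g) := by
  induction n with
  | zero =>
    intro a b hab f g hf hg
    obtain ⟨rfl, rfl⟩ : a = 0 ∧ b = 0 := by omega
    have hf' : D f = 0 := by simpa using hf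
    have hg' : D g = 0 := by simpa using hg
    constructor
    · rw [zero_add, pow_one, D_mul, hf', hg']
      simp
    · simp
  | succ n ih =>
    intro a b hab f g hf hg
    rcases Nat.eq_zero_or_pos a with ha | ha
    · subst ha
      have hf' : D f = 0 := by simpa using hf
      obtain rfl : b = n + 1 := by omega
      rw [D_const_mul hf', D_const_mul hf', hg]
      simp
    rcases Nat.eq_zero_or_pos b with hb | hb
    · subst hb
      have hg' : D g = 0 := by simpa using hg
      obtain rfl : a = n + 1 := by omega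
      rw [mul_comm f g, D_const_mul hg', D_const_mul hg', hf]
      simp [mul_comm]
    obtain ⟨a, rfl⟩ : ∃ a', a = a' + 1 := ⟨a - 1, by omega⟩
    obtain ⟨b, rfl⟩ : ∃ b', b = b' + 1 := ⟨b - 1, by omega⟩
    have hDf : (D ^ (a + 1)) (D f) = 0 := by rw [← D_succ]; exact hf
    have hDg : (D ^ (b + 1)) (D g) = 0 := by rw [← D_succ]; exact hg
    obtain ⟨h1, h1'⟩ := ih a (b + 1) (by omega) (D f) g hDf hg
    obtain ⟨h2, h2'⟩ := ih (a + 1) b (by omega) f (D g) hf hDg
    have h3 : (D ^ n) (D f * D g) = 0 := by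
      rcases Nat.eq_zero_or_pos n with hn | hn
      · omega
      obtain ⟨m, rfl⟩ : ∃ m, n = m + 1 := ⟨n - 1, by omega⟩
      exact (aux m a b (by omega) (D f) (D g) hDf hDg ih).1
    have h3' : (D ^ (n + 1)) (D f * D g) = 0 := D_mono (Nat.le_succ n) h3
    constructor
    · rw [D_succ, D_mul, map_add, map_add, h1, h2, h3']
      simp
    · rw [D_succ, D_mul, map_add, map_add, h1', h2', h3, add_zero]
      rw [← D_succ, ← D_succ, Nat.choose_succ_succ]
      push_cast
      rw [add_smul]
where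
  aux (m a b : ℕ) (h : a + b = m) (f g : ZMod N → K) (hf : (D ^ (a + 1)) f = 0)
      (hg : (D ^ (b + 1)) g = 0)
      (ih : ∀ (a b : ℕ), a + b = m + 1 → ∀ f g : ZMod N → K, (D ^ (a + 1)) f = 0 →
        (D ^ (b + 1)) g = 0 → (D ^ (m + 1 + 1)) (f * g) = 0 ∧
        (D ^ (m + 1)) (f * g) = (((m + 1).choose a : ℕ) : K) • ((D ^ a) f * (D ^ b) g)) :
      (D ^ (m + 1)) (f * g) = 0 ∧ True := by
    refine ⟨?_, trivial⟩
    obtain ⟨-, h2⟩ := ih (a + 1) b (by omega) f g (D_mono (by omega) hf) hg
    rw [h2, hf, zero_mul, smul_zero]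

/-! ### characteristic `p` -/

theorem geom (p k : ℕ) [Fact p.Prime] [CharP K p] :
    ∑ i ∈ range (p ^ k), (S : Module.End K (ZMod N → K)) ^ i = D ^ (p ^ k - 1) := by
  have hp : p.Prime := Fact.out
  have h0 : 0 < p ^ k := pow_pos hp.pos k
  have h1 : (∑ i ∈ range (p ^ k), (Polynomial.X : Polynomial K) ^ i)
      = (Polynomial.X - 1) ^ (p ^ k - 1) := by
    have h2 : (Polynomial.X - 1 : Polynomial K) ≠ 0 := by
      rw [← Polynomial.C_1]
      exact Polynomial.X_sub_C_ne_zero 1
    apply mul_right_cancel₀ h2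
    rw [geom_sum_mul, ← pow_succ, Nat.sub_add_cancel h0, sub_pow_char_pow, one_pow]
  have h3 := congrArg (Polynomial.aeval (S : Module.End K (ZMod N → K))) h1
  simpa [D] using h3

theorem D_pow_N (p k : ℕ) [Fact p.Prime] [CharP K p] :
    (D : Module.End K (ZMod (p ^ k) → K)) ^ (p ^ k) = 0 := by
  have hp : p.Prime := Fact.out
  have h0 : 0 < p ^ k := pow_pos hp.pos k
  have h1 : (D : Module.End K (ZMod (p ^ k) → K)) ^ (p ^ k) = D ^ (p ^ k - 1) * D := by
    rw [← pow_succ, Nat.sub_add_cancel h0]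
  rw [h1, ← geom p k]
  unfold D
  rw [geom_sum_mul, S_pow_N, sub_self]

theorem sum_eq (p k : ℕ) [Fact p.Prime] [CharP K p] [NeZero (p ^ k)] (f : ZMod (p ^ k) → K) :
    ∑ i, f i = (D ^ (p ^ k - 1)) f 0 := by
  rw [← geom p k, LinearMap.sum_apply, Finset.sum_apply]
  simp only [S_pow_apply, zero_add]
  symm
  apply Finset.sum_bij (fun (i : ℕ) _ => ((i : ℕ) : ZMod (p ^ k)))
  · intro a _
    exact mem_univ _
  · intro a ha b hb hab
    rw [mem_range] at ha hb
    rwa [ZMod.natCast_eq_natCast_iff', Nat.mod_eq_of_lt ha, Nat.mod_eq_of_lt hb] at hab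
  · intro b _
    exact ⟨b.val, mem_range.mpr (ZMod.val_lt b), by simp⟩
  · intro a _
    rfl

theorem choose_ne (p k : ℕ) [Fact p.Prime] [CharP K p] (a : ℕ) (ha : a ≤ p ^ k - 1) :
    (((p ^ k - 1).choose a : ℕ) : K) ≠ 0 := by
  have hp : p.Prime := Fact.out
  have h0 : 0 < p ^ k := pow_pos hp.pos k
  induction a with
  | zero => simp
  | succ a ih =>
    have h1 : (p ^ k).choose (a + 1) = (p ^ k - 1).choose a + (p ^ k - 1).choose (a + 1) := by
      conv_lhs => rw [← Nat.sub_add_cancel h0]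
      rw [Nat.choose_succ_succ]
    have h2 : p ∣ (p ^ k).choose (a + 1) := hp.dvd_choose_pow (by omega) (by omega)
    have h3 : (((p ^ k).choose (a + 1) : ℕ) : K) = 0 := (CharP.cast_eq_zero_iff K p _).mpr h2
    rw [h1] at h3
    push_cast at h3
    intro h4
    rw [h4, add_zero] at h3
    exact ih (by omega) h3

/-- A function of order less than `N - 1` has sum zero. -/
theorem sum_zero (p k : ℕ) [Fact p.Prime] [CharP K p] [NeZero (p ^ k)] {a b : ℕ}
    (hab : a + b + 1 < p ^ k) {f g : ZMod (p ^ k) → K} (hf : (D ^ (a + 1)) f = 0)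
    (hg : (D ^ (b + 1)) g = 0) : ∑ i, f i * g i = 0 := by
  have h1 := (lead (a + b) a b rfl f g hf hg).1
  have h2 : (D ^ (p ^ k - 1)) (f * g) = 0 := D_mono (by omega) h1
  have h3 := sum_eq p k (f * g)
  rw [h2] at h3
  simpa using h3

/-- The sum of a product of complementary orders. -/
theorem sum_lead (p k : ℕ) [Fact p.Prime] [CharP K p] [NeZero (p ^ k)] {a b : ℕ}
    (hab : a + b + 1 = p ^ k) {f g : ZMod (p ^ k) → K} (hf : (D ^ (a + 1)) f = 0)
    (hg : (D ^ (b + 1)) g = 0) :
    ∑ i, f i * g i = (((p ^ k - 1).choose a : ℕ) : K) * ((D ^ a) f 0 * (D ^ b) g 0) := by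
  have h1 := (lead (a + b) a b rfl f g hf hg).2
  have h2 : p ^ k - 1 = a + b := by omega
  have h3 := sum_eq p k (f * g)
  rw [h2, h1] at h3
  rw [h2]
  simpa using h3

/-! ### the multiplication by the coordinate -/

/-- The multiplication by the coordinate. -/
def X (x : ZMod N →+* K) (f : ZMod N → K) : ZMod N → K := fun i => x i * f i

theorem X_zero (x : ZMod N →+* K) : X x (0 : ZMod N → K) = 0 := by
  funext i
  simp [X]

theorem D_X (x : ZMod N →+* K) (f : ZMod N → K) : D (X x f) = X x (D f) + S f := by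
  funext i
  simp only [D_apply, X, Pi.add_apply, S_apply, map_add, map_one]
  ring

theorem D_pow_X (x : ZMod N →+* K) (n : ℕ) (f : ZMod N → K) :
    (D ^ (n + 1)) (X x f) = X x ((D ^ (n + 1)) f) + ((n + 1 : ℕ) : K) • S ((D ^ n) f) := by
  induction n with
  | zero =>
    rw [zero_add, pow_one, D_X]
    simp
  | succ n ih =>
    have hc : ∀ g : ZMod N → K, D (S g) = S (D g) := fun g => by
      have := congrArg (fun F : Module.End K (ZMod N → K) => F g) (comm_S_D (K := K) (N := N)).eq
      exact this.symm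
    rw [D_succ' (n + 1), ih, map_add, map_smul, D_X, ← D_succ', hc, ← D_succ']
    push_cast
    module

theorem X_ord (x : ZMod N →+* K) {n : ℕ} {f : ZMod N → K} (hf : (D ^ n) f = 0) :
    (D ^ (n + 1)) (X x f) = 0 := by
  rw [D_pow_X, hf, D_mono (Nat.le_succ n) hf, X_zero, map_zero, smul_zero, add_zero]

/-- The leading coefficient of `X f`. -/
theorem X_lead (x : ZMod N →+* K) {n : ℕ} {f : ZMod N → K} (hf : (D ^ (n + 1)) f = 0) (i : ZMod N) :
    (D ^ (n + 1)) (X x f) i = ((n + 1 : ℕ) : K) * (D ^ n) f (i + 1) := by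
  rw [D_pow_X, hf, X_zero, zero_add]
  rfl

/-- The top difference is constant. -/
theorem const_of {n : ℕ} {f : ZMod N → K} (hf : (D ^ (n + 1)) f = 0) (i : ZMod N) :
    (D ^ n) f (i + 1) = (D ^ n) f i := by
  have h := congrFun hf i
  rw [D_succ', D_apply, Pi.zero_apply] at h
  exact sub_eq_zero.mp h

end Pool.Agent.V8H99.DI
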