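import Pool.Agent.V8H99.DI.Cliff
import Pool.Agent.R503.SIC.Exc2

/-! # Prime dimension: the probabilities suffice -/

set_option autoImplicit false

namespace Pool.Agent.V8H99.DI

open Finset Complex
open scoped ComplexConjugate
open Pool.Agent.R503.SIC (e e_add e_zero conj_e sum_e Fid conj_mul_self' ov norm_e)

/-! ### reduction modulo `p` of two vectors -/

theorem two_vec {K : Type} [Field K] {p : ℕ} [Fact p.Prime] [CharP K p] [NeZero (p ^ 1)]
    (u v : ZMod (p ^ 1) → K) (hu : u ≠ 0) (hv : v ≠ 0) (h1 : ∀ i, u i * v i = 0)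
    (h2 : ∀ α, ∑ i, u i * v (i + α) = 0) : False := by
  classical
  have hp : p.Prime := Fact.out
  have h0 : 0 < p ^ 1 := pow_pos hp.pos 1
  have hN : ∀ f : ZMod (p ^ 1) → K, (D ^ (p ^ 1 - 1 + 1)) f = 0 := by
    intro f
    rw [Nat.sub_add_cancel h0, D_pow_N p 1]
    rfl
  have key : ∀ v : ZMod (p ^ 1) → K, v ≠ 0 → ∃ a : ℕ, a ≤ p ^ 1 - 1 ∧
      (D ^ (a + 1)) v = 0 ∧ (D ^ a) v 0 ≠ 0 := by
    intro v hv
    have hex : ∃ n : ℕ, (D ^ (n + 1)) v = 0 := ⟨p ^ 1 - 1, hN _⟩
    refine ⟨Nat.find hex, Nat.find_min' hex (hN _), Nat.find_spec hex, ?_⟩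
    have h3 : (D ^ (Nat.find hex)) v ≠ 0 := by
      intro hc
      rcases Nat.eq_zero_or_pos (Nat.find hex) with h4 | h4
      · rw [h4, pow_zero, Module.End.one_apply] at hc
        exact hv hc
      · have h5 := Nat.find_min hex (show Nat.find hex - 1 < Nat.find hex by omega)
        apply h5
        rw [Nat.sub_add_cancel h4]
        exact hc
    intro h4
    apply h3
    funext i
    have h5 : D ((D ^ (Nat.find hex)) v) = 0 := by
      rw [← D_succ']
      exact Nat.find_spec hex
    rw [const_all h5 i 0, h4]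
    rfl
  obtain ⟨a, ha, hua, hua0⟩ := key u hu
  obtain ⟨b, hb, hvb, hvb0⟩ := key v hv
  rcases lt_or_ge (a + b) (p ^ 1 - 1 + 1) with h3 | h3
  · rcases Nat.eq_or_lt_of_le (Nat.lt_succ_iff.mp h3) with h4 | h4
    · -- complementary orders
      have h5 := sum_lead p 1 (show a + b + 1 = p ^ 1 by omega) hua hvb
      have h6 := h2 0
      simp only [add_zero] at h6
      rw [h6] at h5
      have := mul_ne_zero (choose_ne (K := K) p 1 a ha) (mul_ne_zero hua0 hvb0)
      exact this h5.symm
    · have h5 := (lead (a + b) a b rfl u v hua hvb).2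
      have h6 : u * v = 0 := by
        funext i
        exact h1 i
      rw [h6, map_zero] at h5
      have h7 := congrFun h5 0
      simp only [Pi.zero_apply, Pi.smul_apply, Pi.mul_apply, smul_eq_mul] at h7
      have h8 : (((a + b).choose a : ℕ) : K) ≠ 0 := by
        intro h9
        rw [CharP.cast_eq_zero_iff K p] at h9
        have h10 : a + b < p := by
          have : p ^ 1 = p := pow_one p
          omega
        have h11 : p ≤ a + b := by
          by_contra hc
          have h12 : (a + b).factorial = (a + b).choose a * a.factorial * b.factorial := by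
            have := Nat.add_choose_mul_factorial_mul_factorial a b
            rw [← this, Nat.choose_symm_add]
          have h13 : p ∣ (a + b).factorial := by
            rw [h12, mul_assoc]
            exact Dvd.dvd.mul_right h9 _
          exact hc ((hp.dvd_factorial).mp h13)
        omega
      exact mul_ne_zero h8 (mul_ne_zero hua0 hvb0) h7.symm
  · obtain ⟨n, hn⟩ : ∃ n, a + b + 1 = p ^ 1 + (n + 1) := ⟨a + b - p ^ 1, by omega⟩
    have h5 : ∀ (n : ℕ) (α : ZMod (p ^ 1)), ∑ i, u i * (D ^ n) v (i + α) = 0 := by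
      intro n
      induction n with
      | zero => exact h2
      | succ n ih =>
        intro α
        simp only [D_succ' n, D_apply, mul_sub, sum_sub_distrib]
        rw [ih α]
        have := ih (α + 1)
        simp only [← add_assoc] at this
        rw [this, sub_self]
    have h6 := h5 (n + 1) 0
    simp only [add_zero] at h6
    have h7 : (D ^ ((b - (n + 1)) + 1)) ((D ^ (n + 1)) v) = 0 := by
      rw [← D_pow_mul, show b - (n + 1) + 1 + (n + 1) = b + 1 by omega]
      exact hvb
    rw [sum_lead p 1 (show a + (b - (n + 1)) + 1 = p ^ 1 by omega) hua h7, ← D_pow_mul,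
      show b - (n + 1) + (n + 1) = b by omega] at h6
    exact mul_ne_zero (choose_ne (K := K) p 1 a ha) (mul_ne_zero hua0 hvb0) h6

/-! ### valuation rings -/

theorem exists_max {ι : Type} [Fintype ι] (O : ValuationSubring ℂ) (f : ι → ℂ)
    (hf : ∃ i, f i ≠ 0) : ∃ i0, f i0 ≠ 0 ∧ ∀ i, f i / f i0 ∈ O := by
  obtain ⟨i1, hi1⟩ := hf
  have : Nonempty ι := ⟨i1⟩
  obtain ⟨i0, hi0⟩ := Finite.exists_max fun i => O.valuation (f i)
  have h0 : f i0 ≠ 0 := by
    intro h
    have h1 := hi0 i1
    rw [h, map_zero] at h1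
    have h2 := le_zero_iff.mp h1
    rw [map_eq_zero] at h2
    exact hi1 h2
  refine ⟨i0, h0, fun i => ?_⟩
  rw [← O.valuation_le_one_iff, map_div₀]
  have h1 : O.valuation (f i0) ≠ 0 := by
    rw [Ne, map_eq_zero]
    exact h0
  exact div_le_one_of_le₀ (hi0 i) zero_le'

theorem charP_residue (O : ValuationSubring ℂ) {p : ℕ} (hp : p.Prime)
    (hpO : (p : ℂ) ∈ O.nonunits) : CharP (IsLocalRing.ResidueField O) p := by
  have hp0 : ((p : ℕ) : IsLocalRing.ResidueField O) = 0 := by
    have h1 : ((p : ℕ) : O) ∈ IsLocalRing.maximalIdeal O := by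
      obtain ⟨ha, hb⟩ := ValuationSubring.mem_nonunits_iff_exists_mem_maximalIdeal.mp hpO
      have h2 : ((p : ℕ) : O) = ⟨(p : ℂ), ha⟩ := by
        apply Subtype.ext
        simp
      rw [h2]
      exact hb
    have h2 : IsLocalRing.residue O ((p : ℕ) : O) = 0 := by
      rw [IsLocalRing.residue_eq_zero_iff]
      exact h1
    rw [map_natCast] at h2
    exact h2
  obtain ⟨r, hr⟩ := CharP.exists (IsLocalRing.ResidueField O)
  have h1 : r ∣ p := (CharP.cast_eq_zero_iff (IsLocalRing.ResidueField O) r p).mp hp0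
  rcases (Nat.dvd_prime hp).mp h1 with h2 | h2
  · subst h2
    exact absurd (CharP.char_ne_one (IsLocalRing.ResidueField O) 1) (by simp)
  · rwa [h2] at hr

theorem integral_of_prob {p : ℕ} (hp : p.Prime) [NeZero (p ^ 1)] {ψ : ZMod (p ^ 1) → ℂ}
    (hψ : ∃ j, ψ j ≠ 0) (O : ValuationSubring ℂ) (hpO : (p : ℂ) ∈ O.nonunits)
    (hdiag : ∀ j, Pr ψ j j ∈ O) (hcorr : ∀ α, ∑ j, Pr ψ j (j + α) ∈ O) (i j : ZMod (p ^ 1)) :
    Pr ψ i j ∈ O := by
  have : Fact p.Prime := ⟨hp⟩
  have := charP_residue O hp hpO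
  obtain ⟨j0, hj0, hu⟩ := exists_max O ψ hψ
  obtain ⟨j1, hj1, hv⟩ := exists_max O (fun j => conj (ψ j)) (by
    obtain ⟨j, hj⟩ := hψ
    exact ⟨j, by simpa using hj⟩)
  set lam : ℂ := ψ j0 * conj (ψ j1) with hlam
  have hlam0 : lam ≠ 0 := mul_ne_zero hj0 hj1
  have hfac : ∀ i j, Pr ψ i j = lam * ((ψ i / ψ j0) * (conj (ψ j) / conj (ψ j1))) := by
    intro i j
    unfold Pr
    rw [hlam]
    field_simp
  by_cases hO : lam ∈ O
  · rw [hfac]
    exact mul_mem hO (mul_mem (hu i) (hv j))
  exfalso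
  have hinv : lam⁻¹ ∈ O := (O.mem_or_inv_mem lam).resolve_left hO
  have hnon : lam⁻¹ ∈ O.nonunits := by
    rw [ValuationSubring.mem_nonunits_iff_or, inv_inv]
    right
    exact hO
  have hnon' : (⟨lam⁻¹, hinv⟩ : O) ∈ IsLocalRing.maximalIdeal O := by
    obtain ⟨_, hb⟩ := ValuationSubring.mem_nonunits_iff_exists_mem_maximalIdeal.mp hnon
    exact hb
  have hres : IsLocalRing.residue O ⟨lam⁻¹, hinv⟩ = 0 := by
    rw [IsLocalRing.residue_eq_zero_iff]
    exact hnon'
  set u : ZMod (p ^ 1) → O := fun i => ⟨ψ i / ψ j0, hu i⟩ with hudef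
  set v : ZMod (p ^ 1) → O := fun i => ⟨conj (ψ i) / conj (ψ j1), hv i⟩ with hvdef
  refine two_vec (fun i => IsLocalRing.residue O (u i)) (fun i => IsLocalRing.residue O (v i))
    ?_ ?_ ?_ ?_
  · intro h
    have h1 := congrFun h j0
    have h2 : u j0 = 1 := by
      apply Subtype.ext
      simp only [hudef]
      exact div_self hj0
    simp only [h2, map_one, Pi.zero_apply] at h1
    exact one_ne_zero h1
  · intro h
    have h1 := congrFun h j1
    have h2 : v j1 = 1 := by
      apply Subtype.ext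
      simp only [hvdef]
      exact div_self hj1
    simp only [h2, map_one, Pi.zero_apply] at h1
    exact one_ne_zero h1
  · intro i
    have h1 : u i * v i = ⟨lam⁻¹, hinv⟩ * ⟨Pr ψ i i, hdiag i⟩ := by
      apply Subtype.ext
      change (ψ i / ψ j0) * (conj (ψ i) / conj (ψ j1)) = lam⁻¹ * Pr ψ i i
      rw [hfac i i, ← mul_assoc, inv_mul_cancel₀ hlam0, one_mul]
    have h2 := congrArg (IsLocalRing.residue O) h1
    rw [map_mul, map_mul, hres, zero_mul] at h2
    exact h2
  · intro α
    have h1 : ∑ i, u i * v (i + α) = ⟨lam⁻¹, hinv⟩ * ⟨∑ j, Pr ψ j (j + α), hcorr α⟩ := by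
      apply Subtype.ext
      rw [AddSubmonoidClass.coe_finsetSum]
      change ∑ i, (ψ i / ψ j0) * (conj (ψ (i + α)) / conj (ψ j1)) = lam⁻¹ * ∑ j, Pr ψ j (j + α)
      rw [mul_sum]
      refine sum_congr rfl fun i _ => ?_
      rw [hfac i (i + α), ← mul_assoc, inv_mul_cancel₀ hlam0, one_mul]
    have h2 := congrArg (IsLocalRing.residue O) h1
    rw [map_sum, map_mul, hres, zero_mul] at h2
    rw [← h2]
    exact sum_congr rfl fun i _ => (map_mul _ _ _).symm

/-- correlations are Fourier transforms of the probabilities in the other basis -/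
theorem corr_Ft {d : ℕ} [NeZero d] (ψ : ZMod d → ℂ) (α : ZMod d) :
    ∑ j, Pr ψ j (j + α) = ∑ k, e (k * α) * Pr (Ft ψ) k k := by
  have hd : (d : ℂ) ≠ 0 := by exact_mod_cast NeZero.ne d
  apply mul_left_cancel₀ hd
  have h2 : ∀ k, (Real.sqrt d : ℂ) * Ft ψ k = ∑ j, e (k * j) * ψ j := fun k => by
    unfold Ft
    exact mul_div_cancel₀ _ sqrt_ne
  have h3 : ∀ k, (Real.sqrt d : ℂ) * conj (Ft ψ k) = ∑ i, e (-(k * i)) * conj (ψ i) := fun k => by
    have h5 := congrArg conj (h2 k)
    rw [map_mul, Complex.conj_ofReal, map_sum] at h5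
    rw [h5]
    refine sum_congr rfl fun i _ => ?_
    rw [map_mul, conj_e]
  symm
  calc (d : ℂ) * ∑ k, e (k * α) * Pr (Ft ψ) k k
      = ∑ k, ∑ j, ∑ i, ψ j * conj (ψ i) * e (k * (j - i + α)) := by
        rw [mul_sum]
        refine sum_congr rfl fun k _ => ?_
        calc (d : ℂ) * (e (k * α) * Pr (Ft ψ) k k)
            = e (k * α) * (((Real.sqrt d : ℂ) * Ft ψ k) * ((Real.sqrt d : ℂ) * conj (Ft ψ k))) := by
              unfold Pr
              rw [← sqrt_sq']
              ring
          _ = _ := by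
              rw [h2, h3, sum_mul_sum, mul_sum]
              refine sum_congr rfl fun j _ => ?_
              rw [mul_sum]
              refine sum_congr rfl fun i _ => ?_
              have h6 : e (k * α) * e (k * j) * e (-(k * i)) = e (k * (j - i + α)) := by
                rw [← e_add, ← e_add]
                congr 1
                ring
              linear_combination (ψ j * conj (ψ i)) * h6
    _ = ∑ j, ∑ i, ∑ k, ψ j * conj (ψ i) * e (k * (j - i + α)) := by
        rw [sum_comm]
        exact sum_congr rfl fun j _ => sum_comm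
    _ = ∑ j, ∑ i, (if i = j + α then (d : ℂ) * (ψ j * conj (ψ i)) else 0) := by
        refine sum_congr rfl fun j _ => sum_congr rfl fun i _ => ?_
        rw [← mul_sum, sum_e]
        by_cases hij : i = j + α
        · rw [if_pos (by rw [hij]; ring), if_pos hij]
          ring
        · rw [if_neg (fun h => hij ?_), if_neg hij, mul_zero]
          linear_combination -h
    _ = _ := by
        rw [mul_sum]
        refine sum_congr rfl fun j _ => ?_
        rw [sum_ite_eq' univ (j + α), if_pos (mem_univ _)]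
        unfold Pr
        ring

/-- the same with the roles of the two bases interchanged -/
theorem corr_Ft' {d : ℕ} [NeZero d] (ψ : ZMod d → ℂ) (α : ZMod d) :
    ∑ k, Pr (Ft ψ) k (k + α) = ∑ j, e (-(j * α)) * Pr ψ j j := by
  have h := ov_Ft ψ α 0
  have h1 : conj (ov (Ft ψ) α 0) = ∑ k, conj (Pr (Ft ψ) k (k + α)) → True := fun _ => trivial
  unfold ov at h
  have h2 : ∑ k, Pr (Ft ψ) k (k + α) = ∑ k, conj (Ft ψ (k + α)) * (e (0 * k) * Ft ψ k) := by
    refine sum_congr rfl fun k _ => ?_
    unfold Pr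
    rw [zero_mul, e_zero]
    ring
  rw [h2, h, mul_zero, neg_zero, e_zero, one_mul]
  refine sum_congr rfl fun j _ => ?_
  unfold Pr
  rw [add_zero, show -α * j = -(j * α) by ring]
  ring

theorem fid_ne {d : ℕ} [NeZero d] {ψ : ZMod d → ℂ} (h : Fid ψ) : ∃ j, ψ j ≠ 0 := by
  by_contra hc
  push Not at hc
  have := h.1
  simp [hc] at this

/-- In prime dimension at least `5` the probabilities in the position basis and in the Fourier basis
are not all integral at `p`. -/
theorem no_prob {d : ℕ} [NeZero d] (hd : d.Prime) (hd5 : 5 ≤ d) {ψ : ZMod d → ℂ} (h : Fid ψ)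
    (O : ValuationSubring ℂ) (hpO : (d : ℂ) ∈ O.nonunits)
    (hpos : ∀ j, Pr ψ j j ∈ O) (hmom : ∀ j, Pr (Ft ψ) j j ∈ O) : False := by
  obtain ⟨p, hp⟩ : ∃ p, d = p ^ 1 := ⟨d, (pow_one d).symm⟩
  subst hp
  have hp : p.Prime := by rwa [pow_one] at hd
  have hp5 : 5 ≤ p := by rwa [pow_one] at hd5
  have hpO' : (p : ℂ) ∈ O.nonunits := by
    rwa [pow_one] at hpO
  have h1 := integral_of_prob hp (fid_ne h) O hpO' hpos fun α => by
    rw [corr_Ft]
    exact sum_mem fun k _ => mul_mem (e_mem O _) (hmom k)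
  have h2 := integral_of_prob hp (fid_ne (fid_Ft h)) O hpO' hmom fun α => by
    rw [corr_Ft']
    exact sum_mem fun k _ => mul_mem (e_mem O _) (hpos k)
  have h3 := (no_integral h hp (dvd_pow_self p one_ne_zero) O hpO' h1 h2).1
  omega

end Pool.Agent.V8H99.DI
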