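import Pool.Agent.V8H99.DI.Crt
import Pool.Agent.N392.WH.Zeros

/-! # Fiducials whose projector is integral in two complementary bases -/

set_option autoImplicit false

namespace Pool.Agent.V8H99.DI

open Finset Complex
open scoped ComplexConjugate
open Pool.Agent.R503.SIC (e e_add e_zero conj_e sum_e Fid conj_mul_self')

variable {d : ℕ} [NeZero d]

/-- `ψ j * conj (ψ k)` -/
noncomputable def Pr (ψ : ZMod d → ℂ) (j k : ZMod d) : ℂ := ψ j * conj (ψ k)

/-- The Fourier transform. -/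
noncomputable def Ft (ψ : ZMod d → ℂ) (k : ZMod d) : ℂ := (∑ j, e (k * j) * ψ j) / (Real.sqrt d : ℂ)

theorem sqrt_ne : ((Real.sqrt d : ℝ) : ℂ) ≠ 0 := by
  have hd : (0 : ℝ) < d := by exact_mod_cast Nat.pos_of_ne_zero (NeZero.ne d)
  exact_mod_cast (Real.sqrt_pos.mpr hd).ne'

theorem sqrt_sq' : ((Real.sqrt d : ℝ) : ℂ) * ((Real.sqrt d : ℝ) : ℂ) = d := by
  rw [← Complex.ofReal_mul, Real.mul_self_sqrt (Nat.cast_nonneg d)]
  norm_num

theorem inv_Ft (ψ : ZMod d → ℂ) (j : ZMod d) :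
    (Real.sqrt d : ℂ) * ψ j = ∑ k, e (-(k * j)) * Ft ψ k := by
  have h1 : ∀ k, e (-(k * j)) * Ft ψ k
      = (∑ i, ψ i * e (k * (i - j))) / (Real.sqrt d : ℂ) := by
    intro k
    unfold Ft
    rw [mul_div_assoc', mul_sum]
    congr 1
    refine sum_congr rfl fun i _ => ?_
    rw [show k * (i - j) = -(k * j) + k * i by ring, e_add]
    ring
  rw [sum_congr rfl fun k _ => h1 k, ← sum_div, sum_comm]
  have h2 : ∀ i, ∑ k, ψ i * e (k * (i - j)) = if i = j then (d : ℂ) * ψ j else 0 := by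
    intro i
    rw [← mul_sum, sum_e]
    by_cases hij : i = j
    · rw [if_pos (sub_eq_zero.mpr hij), if_pos hij, hij]
      ring
    · rw [if_neg (fun h => hij (sub_eq_zero.mp h)), if_neg hij, mul_zero]
  rw [sum_congr rfl fun i _ => h2 i, sum_ite_eq' univ j, if_pos (mem_univ j), ← sqrt_sq']
  field_simp [sqrt_ne (d := d)]

theorem quadC {ψ : ZMod d → ℂ} (h : Fid ψ) (a κ : ZMod d) :
    ((d : ℂ) + 1) * ∑ j, Pr ψ j (j + a) * Pr ψ (j + κ + a) (j + κ)
      = (if a = 0 then 1 else 0) + (if κ = 0 then 1 else 0) := by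
  have hd1 : (d : ℝ) + 1 ≠ 0 := by positivity
  have hF : ∀ a κ : ZMod d, ∑ j, Pr ψ j (j + a) * Pr ψ (j + κ + a) (j + κ)
      = ∑ j, N392.WH.FF ψ a j * conj (N392.WH.FF ψ a (j + κ)) := by
    intro a κ
    refine sum_congr rfl fun j _ => ?_
    unfold Pr N392.WH.FF
    rw [map_mul, Complex.conj_conj]
    ring
  have h0 : ∀ a : ZMod d, ∑ j, Pr ψ j (j + a) * Pr ψ (j + 0 + a) (j + 0)
      = ((∑ j, ‖N392.WH.FF ψ a j‖ ^ 2 : ℝ) : ℂ) := by
    intro a
    rw [hF, Complex.ofReal_sum]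
    refine sum_congr rfl fun j _ => ?_
    rw [add_zero, mul_comm, conj_mul_self']
  have h00 : ∑ j, ‖N392.WH.FF ψ 0 j‖ ^ 2 = 2 / ((d : ℝ) + 1) := by
    rw [← N392.WH.fourth h]
    refine sum_congr rfl fun j _ => ?_
    unfold N392.WH.FF
    rw [add_zero, norm_mul, Pool.Agent.R503.SIC.norm_conj']
    ring
  have hsymm : ∑ j, Pr ψ j (j + 0) * Pr ψ (j + κ + 0) (j + κ)
      = ∑ j, Pr ψ j (j + κ) * Pr ψ (j + 0 + κ) (j + 0) := by
    refine sum_congr rfl fun j _ => ?_
    unfold Pr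
    rw [add_zero, add_zero]
    ring
  by_cases ha : a = 0
  · subst ha
    by_cases hκ : κ = 0
    · subst hκ
      rw [h0, h00]
      simp only [if_true]
      push_cast
      have : (d : ℂ) + 1 ≠ 0 := by exact_mod_cast hd1
      field_simp
      norm_num
    · rw [hsymm, h0, N392.WH.row_sum h hκ, if_pos rfl, if_neg hκ]
      push_cast
      have : (d : ℂ) + 1 ≠ 0 := by exact_mod_cast hd1
      field_simp
      ring
  · by_cases hκ : κ = 0
    · subst hκ
      rw [h0, N392.WH.row_sum h ha, if_pos rfl, if_neg ha]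
      push_cast
      have : (d : ℂ) + 1 ≠ 0 := by exact_mod_cast hd1
      field_simp
      ring
    · rw [hF, N392.WH.four_term h ha hκ, if_neg ha, if_neg hκ]
      ring

theorem trC {ψ : ZMod d → ℂ} (h : Fid ψ) : ∑ j, Pr ψ j j = 1 := by
  have h1 : ∀ j, Pr ψ j j = ((‖ψ j‖ ^ 2 : ℝ) : ℂ) := by
    intro j
    unfold Pr
    rw [mul_comm, conj_mul_self']
  rw [sum_congr rfl fun j _ => h1 j, ← Complex.ofReal_sum, h.1, Complex.ofReal_one]

section crt

variable {p k m : ℕ} [Fact p.Prime] [NeZero (p ^ k)] [NeZero m] [NeZero (p ^ k * m)]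

/-- the character `i ↦ e (y * crt (i, 0))` -/
noncomputable def ch (hc : Nat.Coprime (p ^ k) m) (y : ZMod (p ^ k * m)) :
    AddChar (ZMod (p ^ k)) ℂ where
  toFun i := e (y * crt hc (i, 0))
  map_zero_eq_one' := by
    have : crt hc ((0 : ZMod (p ^ k)), (0 : ZMod m)) = 0 := map_zero (crt hc)
    rw [this, mul_zero, e_zero]
  map_add_eq_mul' i j := by
    have : crt hc (i + j, (0 : ZMod m)) = crt hc (i, 0) + crt hc (j, 0) := by
      rw [← map_add]
      simp
    rw [this, mul_add, e_add]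

theorem crt_add (hc : Nat.Coprime (p ^ k) m) (i i' : ZMod (p ^ k)) (l l' : ZMod m) :
    crt hc (i + i', l + l') = crt hc (i, l) + crt hc (i', l') := by
  rw [← map_add]
  rfl

theorem exists_delta (hc : Nat.Coprime (p ^ k) m) :
    ∃ δ : ZMod (p ^ k * m) → ℂ, (∀ y, δ y = 0 ∨ δ y = 1) ∧
      ∀ y, ∑ i, e (y * crt hc (i, 0)) = ((p ^ k : ℕ) : ℂ) * δ y := by
  classical
  refine ⟨fun y => if ch hc y = 0 then 1 else 0, ?_, ?_⟩
  · intro y
    by_cases h : ch hc y = 0
    · right; simp only [if_pos h]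
    · left; simp only [if_neg h]
  · intro y
    have h := AddChar.sum_eq_ite (ch hc y)
    have h2 : ∑ i, (ch hc y) i = ∑ i, e (y * crt hc (i, 0)) := rfl
    rw [← h2, h, ZMod.card]
    by_cases h : ch hc y = 0
    · simp only [if_pos h, mul_one]
    · simp only [if_neg h, mul_zero]

theorem momC (hc : Nat.Coprime (p ^ k) m) (ψ : ZMod (p ^ k * m) → ℂ)
    {δ : ZMod (p ^ k * m) → ℂ}
    (hδ : ∀ y, ∑ i, e (y * crt hc (i, 0)) = ((p ^ k : ℕ) : ℂ) * δ y)
    (l l' : ZMod m) (α : ZMod (p ^ k)) :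
    (m : ℂ) * ∑ i, Pr ψ (crt hc (i, l)) (crt hc (i + α, l'))
      = ∑ a, ∑ b, Pr (Ft ψ) a b * e (-(a * crt hc (0, l))) * e (b * crt hc (0, l'))
          * δ (b - a) * e (b * crt hc (α, 0)) := by
  have hN : ((p ^ k : ℕ) : ℂ) ≠ 0 := by exact_mod_cast NeZero.ne (p ^ k)
  apply mul_left_cancel₀ hN
  rw [← mul_assoc, ← Nat.cast_mul, mul_sum, mul_sum]
  have h1 : ∀ j j' : ZMod (p ^ k * m), ((p ^ k * m : ℕ) : ℂ) * Pr ψ j j'
      = ∑ a, ∑ b, Pr (Ft ψ) a b * (e (-(a * j)) * e (b * j')) := by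
    intro j j'
    rw [← sqrt_sq']
    have h2 : conj ((Real.sqrt (p ^ k * m : ℕ) : ℂ) * ψ j') = ∑ b, e (b * j') * conj (Ft ψ b) := by
      rw [inv_Ft, map_sum]
      refine sum_congr rfl fun b _ => ?_
      rw [map_mul, conj_e, neg_neg]
    rw [map_mul, Complex.conj_ofReal] at h2
    calc _ = ((Real.sqrt (p ^ k * m : ℕ) : ℂ) * ψ j)
          * ((Real.sqrt (p ^ k * m : ℕ) : ℂ) * conj (ψ j')) := by
          unfold Pr
          ring
      _ = _ := by
          rw [h2, inv_Ft, sum_mul_sum]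
          refine sum_congr rfl fun a _ => sum_congr rfl fun b _ => ?_
          unfold Pr
          ring
  calc ∑ i, ((p ^ k * m : ℕ) : ℂ) * Pr ψ (crt hc (i, l)) (crt hc (i + α, l'))
      = ∑ i, ∑ a, ∑ b, Pr (Ft ψ) a b * e (-(a * crt hc (0, l))) * e (b * crt hc (0, l'))
          * e (b * crt hc (α, 0)) * e ((b - a) * crt hc (i, 0)) := by
        refine sum_congr rfl fun i _ => ?_
        rw [h1]
        refine sum_congr rfl fun a _ => sum_congr rfl fun b _ => ?_
        have h3 : crt hc (i, l) = crt hc (i, 0) + crt hc (0, l) := by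
          rw [← crt_add, add_zero, zero_add]
        have h4 : crt hc (i + α, l') = crt hc (i, 0) + crt hc (α, 0) + crt hc (0, l') := by
          rw [← crt_add, ← crt_add]
          simp only [add_zero, zero_add]
        rw [h3, h4, mul_assoc, mul_assoc, mul_assoc]
        congr 1
        rw [← e_add, ← e_add, ← e_add, ← e_add]
        congr 1
        ring
    _ = ∑ a, ∑ b, ∑ i, Pr (Ft ψ) a b * e (-(a * crt hc (0, l))) * e (b * crt hc (0, l'))
          * e (b * crt hc (α, 0)) * e ((b - a) * crt hc (i, 0)) := by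
        rw [sum_comm]
        exact sum_congr rfl fun a _ => sum_comm
    _ = _ := by
        refine sum_congr rfl fun a _ => ?_
        rw [mul_sum]
        refine sum_congr rfl fun b _ => ?_
        rw [← mul_sum, hδ]
        ring

end crt

end Pool.Agent.V8H99.DI
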