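import Pool.Agent.V8H99.DI.Prob

/-! # Generated rings -/

set_option autoImplicit false

namespace Pool.Agent.V8H99.DI

open Finset Complex
open scoped ComplexConjugate
open Pool.Agent.R503.SIC (e e_add e_zero conj_e sum_e Fid conj_mul_self' ov norm_e)

theorem inv_mem {S : Set ℂ} {p : ℕ} (hp : p.Prime)
    (h : ∀ O : ValuationSubring ℂ, (p : ℂ) ∈ O.nonunits → (∀ z ∈ S, z ∈ O) → False) :
    (1 / (p : ℂ)) ∈ Subring.closure S := by
  have hp0 : (p : ℂ) ≠ 0 := by exact_mod_cast hp.ne_zero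
  by_cases hI : Ideal.span {((p : ℕ) : Subring.closure S)} = ⊤
  · have h1 : (1 : Subring.closure S) ∈ Ideal.span {((p : ℕ) : Subring.closure S)} := by
      rw [hI]
      exact Submodule.mem_top
    obtain ⟨a, ha⟩ := Ideal.mem_span_singleton'.mp h1
    have h2 : (a : ℂ) * (p : ℂ) = 1 := by
      have := congrArg (Subtype.val) ha
      simpa using this
    rw [← eq_div_iff hp0] at h2
    rw [← h2]
    exact a.2
  · exfalso
    obtain ⟨B, hB1, hB2⟩ := Ideal.image_subset_nonunits_valuationSubring _ hI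
    refine h B ?_ ?_
    · apply hB2
      refine ⟨((p : ℕ) : Subring.closure S), Ideal.mem_span_singleton_self _, ?_⟩
      simp
    · intro z hz
      exact hB1 (Subring.subset_closure hz)

/-! ### even dimension -/

theorem no_integral_two {d : ℕ} [NeZero d] (hd : 2 ∣ d) {ψ : ZMod d → ℂ} (h : Fid ψ)
    (O : ValuationSubring ℂ) (hO : ((2 : ℕ) : ℂ) ∈ O.nonunits) (hpos : ∀ i j, Pr ψ i j ∈ O) :
    False := by
  have hd0 : 0 < d := Nat.pos_of_ne_zero (NeZero.ne d)
  have hch := charP_residue O Nat.prime_two hO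
  obtain ⟨n, hn⟩ := hd
  set a : ZMod d := (n : ZMod d) with ha
  have haa : a + a = 0 := by
    rw [ha, ← Nat.cast_add, ← two_mul, ← hn, ZMod.natCast_self]
  have ha0 : a ≠ 0 := by
    rw [ha, Ne, ZMod.natCast_eq_zero_iff]
    intro h1
    have := Nat.le_of_dvd (by omega) h1
    omega
  have hneg : -a = a := by linear_combination -haa
  have h1 : ∑ j, Pr ψ j (j + a) ^ 2 = 0 := by
    rw [← N392.WH.four_term h ha0 ha0]
    refine sum_congr rfl fun j _ => ?_
    unfold Pr N392.WH.FF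
    rw [map_mul, Complex.conj_conj, add_assoc, haa, add_zero]
    ring
  have h2 : ((d : ℂ) + 1) * (∑ j, Pr ψ j (j + a)) ^ 2 = 1 := by
    have h3 : ∑ j, Pr ψ j (j + a) = ov ψ a 0 := by
      unfold ov Pr
      refine sum_congr rfl fun j _ => ?_
      rw [zero_mul, e_zero]
      ring
    have h4 := Pool.Agent.R503.SIC.conj_ov ψ a 0
    rw [zero_mul, e_zero, one_mul, hneg, neg_zero] at h4
    have h5 : (ov ψ a 0) ^ 2 = ((1 / ((d : ℝ) + 1) : ℝ) : ℂ) := by
      rw [← h.2 a 0 (by simp [ha0]), ← conj_mul_self', h4]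
      ring
    rw [h3, h5]
    push_cast
    have : (d : ℂ) + 1 ≠ 0 := by
      have : (0 : ℝ) < (d : ℝ) + 1 := by positivity
      exact_mod_cast this.ne'
    field_simp
  set F : ZMod d → O := fun j => ⟨Pr ψ j (j + a), hpos _ _⟩ with hF
  have h3 : ∑ j, F j ^ 2 = 0 := by
    apply Subtype.ext
    rw [AddSubmonoidClass.coe_finsetSum]
    exact h1
  have h4 : (((d : ℕ) : O) + 1) * (∑ j, F j) ^ 2 = 1 := by
    apply Subtype.ext
    push_cast
    simp only [hF]
    exact h2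
  have h5 := congrArg (IsLocalRing.residue O) h4
  have h6 := congrArg (IsLocalRing.residue O) h3
  rw [map_mul, map_pow, map_sum, sum_pow_char 2, map_one] at h5
  rw [map_sum, map_zero] at h6
  simp only [map_pow] at h6
  rw [h6, mul_zero] at h5
  exact zero_ne_one h5

/-! ### two chirped Fourier bases in prime dimension -/

theorem amp_pair {d : ℕ} [NeZero d] (hd : d.Prime) (hd2 : 2 < d) {c c' : ZMod d} (hc : c ≠ c')
    (ψ : ZMod d → ℂ) :
    ∃ (c'' s : ZMod d), s ≠ 0 ∧ ∀ k, ‖amp c' ψ k‖ = ‖amp c'' (amp c ψ) (s * k)‖ := by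
  have : Fact d.Prime := ⟨hd⟩
  set γ := c' - c with hγ
  have hγ0 : γ ≠ 0 := sub_ne_zero.mpr (Ne.symm hc)
  have h2 : (2 : ZMod d) ≠ 0 := by
    intro h
    have h1 : ((2 : ℕ) : ZMod d) = 0 := by exact_mod_cast h
    rw [ZMod.natCast_eq_zero_iff] at h1
    have := Nat.le_of_dvd (by norm_num) h1
    omega
  have h4 : (4 * γ) ≠ 0 := by
    refine mul_ne_zero ?_ hγ0
    rw [show (4 : ZMod d) = 2 * 2 by norm_num]
    exact mul_ne_zero h2 h2
  have hd0 : (0 : ℝ) < d := by exact_mod_cast hd.pos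
  refine ⟨-(4 * γ)⁻¹, 2 * (4 * γ)⁻¹, mul_ne_zero h2 (inv_ne_zero h4), fun k => ?_⟩
  set G := ∑ j, e (γ * j ^ 2) with hG
  have hGn : ‖G‖ = Real.sqrt d := by
    have h5 := Pool.Agent.R503.SIC.quad hd hd2 hγ0 0
    simp only [zero_mul, add_zero] at h5
    rw [← hG] at h5
    rw [← h5, Real.sqrt_sq (norm_nonneg G)]
  have key : (Real.sqrt d : ℂ) * ((Real.sqrt d : ℂ) * amp c' ψ k)
      = G * e (-(k ^ 2 * (4 * γ)⁻¹)) * ((Real.sqrt d : ℂ)
        * amp (-(4 * γ)⁻¹) (amp c ψ) (2 * (4 * γ)⁻¹ * k)) := by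
    have h5 : (Real.sqrt d : ℂ) * amp c' ψ k = ∑ j, e (γ * j ^ 2 + k * j) * chirp c ψ j := by
      rw [amp_eq, mul_div_cancel₀ _ sqrt_ne]
      refine sum_congr rfl fun j _ => ?_
      unfold chirp
      rw [← mul_assoc, ← e_add]
      congr 2
      rw [hγ]
      ring
    have h6 : (Real.sqrt d : ℂ) * amp (-(4 * γ)⁻¹) (amp c ψ) (2 * (4 * γ)⁻¹ * k)
        = ∑ t, e (-(4 * γ)⁻¹ * t ^ 2 + 2 * (4 * γ)⁻¹ * k * t) * amp c ψ t := by
      rw [amp_eq, mul_div_cancel₀ _ sqrt_ne]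
    rw [h5, h6, mul_sum, mul_sum]
    have h7 : ∀ j, (Real.sqrt d : ℂ) * (e (γ * j ^ 2 + k * j) * chirp c ψ j)
        = ∑ t, amp c ψ t * e (γ * j ^ 2 + (k - t) * j) := by
      intro j
      have h8 := inv_Ft (chirp c ψ) j
      calc _ = e (γ * j ^ 2 + k * j) * ((Real.sqrt d : ℂ) * chirp c ψ j) := by ring
        _ = _ := by
          rw [h8, mul_sum]
          refine sum_congr rfl fun t _ => ?_
          have h9 : e (γ * j ^ 2 + k * j) * e (-(t * j)) = e (γ * j ^ 2 + (k - t) * j) := by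
            rw [← e_add]
            congr 1
            ring
          change e (γ * j ^ 2 + k * j) * (e (-(t * j)) * amp c ψ t) = _
          linear_combination (amp c ψ t) * h9
    rw [sum_congr rfl fun j _ => h7 j, sum_comm]
    refine sum_congr rfl fun t _ => ?_
    rw [← mul_sum, gauss_shift γ (k - t) (Ne.isUnit h4), ← hG]
    have h9 : e (-((k - t) ^ 2 * (4 * γ)⁻¹))
        = e (-(k ^ 2 * (4 * γ)⁻¹)) * e (-(4 * γ)⁻¹ * t ^ 2 + 2 * (4 * γ)⁻¹ * k * t) := by
      rw [← e_add]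
      congr 1
      ring
    rw [h9]
    ring
  have h5 := congrArg norm key
  simp only [norm_mul, norm_e, hGn, mul_one, Complex.norm_real, Real.norm_eq_abs,
    abs_of_nonneg (Real.sqrt_nonneg _)] at h5
  have h6 : Real.sqrt d ≠ 0 := (Real.sqrt_pos.mpr hd0).ne'
  exact mul_left_cancel₀ h6 (mul_left_cancel₀ h6 h5)

end Pool.Agent.V8H99.DI
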