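import Pool.Agent.V8H99.DI.Red

/-! # No reduction modulo `p` -/

set_option autoImplicit false

namespace Pool.Agent.V8H99.DI

open Finset Complex
open scoped ComplexConjugate
open Pool.Agent.R503.SIC (e e_add e_zero conj_e sum_e Fid conj_mul_self')

theorem e_mem {d : ℕ} [NeZero d] (O : ValuationSubring ℂ) (x : ZMod d) : e x ∈ O := by
  have h1 : (e x) ^ d = 1 := by
    have h2 : ∀ n : ℕ, (e x) ^ n = e ((n : ZMod d) * x) := by
      intro n
      induction n with
      | zero => simp [e_zero]
      | succ n ih =>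
        rw [pow_succ, ih, ← e_add]
        congr 1
        push_cast
        ring
    rw [h2, ZMod.natCast_self, zero_mul, e_zero]
  have h2 : IsIntegral O (e x) := by
    refine IsIntegral.of_pow (Nat.pos_of_ne_zero (NeZero.ne d)) ?_
    rw [h1]
    exact isIntegral_one
  obtain ⟨y, hy⟩ := IsIntegrallyClosed.isIntegral_iff.mp h2
  rw [← hy]
  exact y.2

theorem e_pow {d : ℕ} [NeZero d] (x : ZMod d) (n : ℕ) : (e x) ^ n = e ((n : ZMod d) * x) := by
  induction n with
  | zero => simp [e_zero]
  | succ n ih =>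
    rw [pow_succ, ih, ← e_add]
    congr 1
    push_cast
    ring

section red

variable {p k m : ℕ} [Fact p.Prime] [NeZero (p ^ k)] [NeZero m] [NeZero (p ^ k * m)]

theorem no_red (hk : k ≠ 0) (hpm : ¬ p ∣ m) {ψ : ZMod (p ^ k * m) → ℂ} (h : Fid ψ)
    (O : Subring ℂ) {K : Type} [Field K] [CharP K p] (φ : O →+* K)
    (he : ∀ x : ZMod (p ^ k * m), e x ∈ O)
    (hpos : ∀ i j, Pr ψ i j ∈ O) (hmom : ∀ i j, Pr (Ft ψ) i j ∈ O) :
    p = 3 ∧ k = 1 ∧ (m : K) = 1 := by
  have hp : p.Prime := Fact.out
  have hc : Nat.Coprime (p ^ k) m := Nat.Coprime.pow_left k ((Nat.Prime.coprime_iff_not_dvd hp).mpr hpm)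
  set P : ZMod (p ^ k * m) → ZMod (p ^ k * m) → O := fun i j => ⟨Pr ψ i j, hpos i j⟩ with hP
  set E : ZMod (p ^ k * m) → O := fun x => ⟨e x, he x⟩ with hE
  have hdK : ((p ^ k * m : ℕ) : K) = 0 := by
    rw [Nat.cast_mul, castN hk, zero_mul]
  -- the rank one factorisation
  have htr : ∑ j, P j j = 1 := by
    apply Subtype.ext
    rw [AddSubmonoidClass.coe_finsetSum]
    exact trC h
  have htrK : ∑ j, φ (P j j) = 1 := by
    rw [← map_sum, htr, map_one]
  obtain ⟨j0, hj0⟩ : ∃ j0, φ (P j0 j0) ≠ 0 := by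
    by_contra hcon
    push Not at hcon
    rw [sum_congr rfl fun j _ => hcon j, sum_const_zero] at htrK
    exact zero_ne_one htrK
  set U : ZMod (p ^ k * m) → K := fun j => φ (P j j0) with hU
  set W : ZMod (p ^ k * m) → K := fun j => φ (P j0 j) / φ (P j0 j0) with hW
  have hUW : ∀ i j, U i * W j = φ (P i j) := by
    intro i j
    have h1 : P i j0 * P j0 j = P i j * P j0 j0 := by
      apply Subtype.ext
      simp only [hP, Subring.coe_mul]
      unfold Pr
      ring
    simp only [hU, hW]
    rw [mul_div_assoc', ← map_mul, h1, map_mul, mul_div_cancel_right₀ _ hj0]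
  refine main_K hk hc U W ?_ ?_ ?_
  · intro a κ
    have h1 : ((((p ^ k * m : ℕ) : O)) + 1) * ∑ j, P j (j + a) * P (j + κ + a) (j + κ)
        = (if a = 0 then 1 else 0) + (if κ = 0 then 1 else 0) := by
      apply Subtype.ext
      have h2 := quadC h a κ
      by_cases ha : a = 0
      · by_cases hκ : κ = 0
        · simp only [ha, hκ, if_true] at h2 ⊢
          push_cast at h2 ⊢
          exact h2
        · simp only [ha, if_true, if_neg hκ] at h2 ⊢
          push_cast at h2 ⊢
          exact h2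
      · by_cases hκ : κ = 0
        · simp only [hκ, if_true, if_neg ha] at h2 ⊢
          push_cast at h2 ⊢
          exact h2
        · simp only [if_neg ha, if_neg hκ] at h2 ⊢
          push_cast at h2 ⊢
          exact h2
    have h3 := congrArg φ h1
    rw [map_mul, map_add, map_natCast, hdK, map_one, zero_add, one_mul, map_sum, map_add] at h3
    have h4 : φ (if a = 0 then 1 else 0) = if a = 0 then 1 else 0 := by
      by_cases ha : a = 0
      · rw [if_pos ha, if_pos ha, map_one]
      · rw [if_neg ha, if_neg ha, map_zero]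
    have h5 : φ (if κ = 0 then 1 else 0) = if κ = 0 then 1 else 0 := by
      by_cases hκ : κ = 0
      · rw [if_pos hκ, if_pos hκ, map_one]
      · rw [if_neg hκ, if_neg hκ, map_zero]
    rw [h4, h5] at h3
    rw [← h3]
    refine sum_congr rfl fun j _ => ?_
    rw [hUW, hUW, map_mul]
  · rw [← htrK]
    exact sum_congr rfl fun j _ => hUW j j
  · intro l l' α
    obtain ⟨δ, hδ1, hδ⟩ := exists_delta (p := p) (k := k) (m := m) hc
    have hδO : ∀ y, δ y ∈ O := by
      intro y
      rcases hδ1 y with h1 | h1 <;> rw [h1]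
      · exact O.zero_mem
      · exact O.one_mem
    set Q : ZMod (p ^ k * m) → ZMod (p ^ k * m) → O := fun i j => ⟨Pr (Ft ψ) i j, hmom i j⟩ with hQ
    set Δ : ZMod (p ^ k * m) → O := fun y => ⟨δ y, hδO y⟩ with hΔ
    have h1 : ∀ α : ZMod (p ^ k), (m : O) * ∑ i, P (crt hc (i, l)) (crt hc (i + α, l'))
        = ∑ a, ∑ b, Q a b * E (-(a * crt hc (0, l))) * E (b * crt hc (0, l'))
          * Δ (b - a) * E (b * crt hc (α, 0)) := by
      intro α
      apply Subtype.ext
      have h2 := momC hc ψ hδ l l' α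
      push_cast
      simp only [hP, hQ, hE, hΔ]
      exact h2
    have h2 : ∀ (b : ZMod (p ^ k * m)) (α : ZMod (p ^ k)), φ (E (b * crt hc (α, 0))) = 1 := by
      intro b α
      have h3 : E (b * crt hc (α, 0)) ^ (p ^ k) = 1 := by
        apply Subtype.ext
        have h4 : (((p ^ k : ℕ) : ZMod (p ^ k * m)) * (b * crt hc (α, 0))) = 0 := by
          have h5 : ((p ^ k : ℕ) : ZMod (p ^ k * m)) * crt hc (α, 0) = 0 := by
            rw [← map_natCast (crt hc), ← map_mul]
            have : ((p ^ k : ℕ) : ZMod (p ^ k) × ZMod m) * (α, 0) = 0 := by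
              apply Prod.ext
              · rw [Prod.fst_mul, Prod.fst_natCast, ZMod.natCast_self, zero_mul]
                rfl
              · rw [Prod.snd_mul, mul_zero]
                rfl
            rw [this, map_zero]
          rw [mul_comm b, ← mul_assoc, h5, zero_mul]
        rw [SubmonoidClass.coe_pow]
        simp only [hE]
        rw [e_pow, h4, e_zero]
        rfl
      have h4 : (φ (E (b * crt hc (α, 0))) - 1) ^ (p ^ k) = 0 := by
        rw [sub_pow_char_pow, one_pow, ← map_pow, h3, map_one, sub_self]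
      exact sub_eq_zero.mp (pow_eq_zero_iff (NeZero.ne (p ^ k)) |>.mp h4)
    have h3 : ∀ α : ZMod (p ^ k), (m : K) * ∑ i, U (crt hc (i, l)) * W (crt hc (i + α, l'))
        = ∑ a, ∑ b, φ (Q a b * E (-(a * crt hc (0, l))) * E (b * crt hc (0, l'))
          * Δ (b - a)) := by
      intro α
      have h4 := congrArg φ (h1 α)
      rw [map_mul, map_natCast, map_sum, map_sum] at h4
      simp only [hUW]
      rw [h4]
      refine sum_congr rfl fun a _ => ?_
      rw [map_sum]
      refine sum_congr rfl fun b _ => ?_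
      rw [map_mul, h2, mul_one]
    have hmK : (m : K) ≠ 0 := by
      intro h4
      exact hpm ((CharP.cast_eq_zero_iff K p m).mp h4)
    apply mul_left_cancel₀ hmK
    have h4 := h3 0
    simp only [add_zero] at h4
    rw [h3 α, h4]

end red

/-- **No fiducial is integral at `p` in two complementary bases**, except possibly for `p = 3`,
`d = 3` modulo `9`. -/
theorem no_integral {d : ℕ} [NeZero d] {ψ : ZMod d → ℂ} (h : Fid ψ) {p : ℕ} (hp : p.Prime)
    (hpd : p ∣ d) (O : ValuationSubring ℂ) (hpO : (p : ℂ) ∈ O.nonunits)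
    (hpos : ∀ i j, Pr ψ i j ∈ O) (hmom : ∀ i j, Pr (Ft ψ) i j ∈ O) : p = 3 ∧ d % 9 = 3 := by
  have : Fact p.Prime := ⟨hp⟩
  obtain ⟨k, m, hpm, hd⟩ := Nat.exists_eq_pow_mul_and_not_dvd (NeZero.ne d) p hp.ne_one
  subst hd
  have hk : k ≠ 0 := by
    rintro rfl
    rw [pow_zero, one_mul] at hpd
    exact hpm hpd
  have hm : m ≠ 0 := by
    rintro rfl
    exact hpm (dvd_zero p)
  have : NeZero m := ⟨hm⟩
  have : NeZero (p ^ k) := ⟨(pow_pos hp.pos k).ne'⟩
  set K := IsLocalRing.ResidueField O with hK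
  have hp0 : ((p : ℕ) : K) = 0 := by
    have h1 : ((p : ℕ) : O) ∈ IsLocalRing.maximalIdeal O := by
      obtain ⟨ha, hb⟩ := ValuationSubring.mem_nonunits_iff_exists_mem_maximalIdeal.mp hpO
      have h2 : ((p : ℕ) : O) = ⟨(p : ℂ), ha⟩ := by
        apply Subtype.ext
        simp
      rw [h2]
      exact hb
    have h2 : IsLocalRing.residue O ((p : ℕ) : O) = 0 := by
      rw [IsLocalRing.residue_eq_zero_iff]
      exact h1
    rw [map_natCast] at h2
    exact h2
  have : CharP K p := by
    obtain ⟨r, hr⟩ := CharP.exists K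
    have h1 : r ∣ p := (CharP.cast_eq_zero_iff K r p).mp hp0
    rcases (Nat.dvd_prime hp).mp h1 with h2 | h2
    · subst h2
      exact absurd (CharP.char_ne_one K 1) (by simp)
    · rwa [h2] at hr
  obtain ⟨h1, h2, h3⟩ := no_red hk hpm h O.toSubring (K := K) (IsLocalRing.residue O)
    (fun x => e_mem O x) hpos hmom
  refine ⟨h1, ?_⟩
  subst h1 h2
  have h4 : ((m : ℤ) - 1 : ℤ) = 0 → True := fun _ => trivial
  have h5 : 3 ∣ m - 1 := by
    rw [← CharP.cast_eq_zero_iff K 3, Nat.cast_sub (Nat.one_le_iff_ne_zero.mpr hm), h3]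
    simp
  omega

end Pool.Agent.V8H99.DI
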